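import Pool.Agent.P.MP_956cc7_gt.Rot

set_option autoImplicit false
open scoped ContDiff Topology
open Filter Set

namespace Pool.Agent.P.MP_956cc7_gt

noncomputable def i1 (e : ℝ) : ℝ := (1 + e ^ 4)⁻¹
noncomputable def i2 (e : ℝ) : ℝ := (1 + 2 * e ^ 4)⁻¹
noncomputable def i3 (e : ℝ) : ℝ := (2 + e ^ 4)⁻¹

@[fun_prop] theorem contDiff_i1 : ContDiff ℝ ∞ i1 :=
  ContDiff.inv (by fun_prop) fun e => by positivity
@[fun_prop] theorem contDiff_i2 : ContDiff ℝ ∞ i2 :=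
  ContDiff.inv (by fun_prop) fun e => by positivity
@[fun_prop] theorem contDiff_i3 : ContDiff ℝ ∞ i3 :=
  ContDiff.inv (by fun_prop) fun e => by positivity

/-- Lelieuvre normal along the central asymptotic curve -/
noncomputable def n1 (e x : ℝ) : ℝ := 1 + e ^ 2 * Real.cos x
noncomputable def n2 (e x : ℝ) : ℝ := -e ^ 2 * Real.sin x
noncomputable def n3 (e x : ℝ) : ℝ := -e ^ 3 * Real.sin x

noncomputable def mm (e x : ℝ) : ℝ :=
  (2 + 2 * e ^ 4) * i2 e * Real.sin x + 2 * e ^ 2 * i3 e * (Real.sin x * Real.cos x)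
noncomputable def qq (e x : ℝ) : ℝ :=
  2 * e ^ 2 * i2 e * Real.cos x + i3 e * (1 - 2 * (Real.sin x * Real.sin x))

/-- direction of the Lelieuvre normal along the rulings -/
noncomputable def m1 (e x : ℝ) : ℝ := e ^ 2 * mm e x
noncomputable def m2 (e x : ℝ) : ℝ := -1 + e ^ 4 * qq e x
noncomputable def m3 (e x : ℝ) : ℝ := -e - e ^ 5 * i1 e * (Real.sin x * Real.sin x)
noncomputable def WW (e x : ℝ) : ℝ := -e ^ 3 * i1 e * Real.sin x

noncomputable def aa0 (e x : ℝ) : ℝ :=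
  -2 * (1 + e ^ 4) * i2 e * Real.cos x - e ^ 2 / 2 * i3 e * (1 - 2 * (Real.sin x * Real.sin x))
noncomputable def aa1 (e x : ℝ) : ℝ :=
  -e * Real.sin x * (i1 e * (Real.sin x * Real.sin x) + qq e x)
noncomputable def ww0 (e x : ℝ) : ℝ :=
  e * (2 * i1 e + 2 * e ^ 4 * i2 e) * Real.sin x + e ^ 3 * i3 e * (Real.sin x * Real.cos x)
noncomputable def ww1 (e x : ℝ) : ℝ :=
  -(1 + e ^ 2 * Real.cos x) * (i1 e * (Real.sin x * Real.sin x) + qq e x)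
noncomputable def cc0 (e x : ℝ) : ℝ := -(1 - e ^ 4) * i1 e * Real.sin x
noncomputable def cc1 (e x : ℝ) : ℝ :=
  e * Real.cos x - e ^ 3 * Real.sin x * mm e x - e ^ 3 * (1 + e ^ 2 * Real.cos x) * qq e x

theorem abs_WW_lt (e x : ℝ) : |WW e x| < 1 := by
  rw [← sq_lt_one_iff_abs_lt_one]
  have h1 : Real.sin x ^ 2 ≤ 1 := Real.sin_sq_le_one x
  have h2 : (0 : ℝ) < 1 + e ^ 4 := by positivity
  have h3 : WW e x ^ 2 = e ^ 6 * Real.sin x ^ 2 / (1 + e ^ 4) ^ 2 := by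
    unfold WW i1; field_simp
  rw [h3, div_lt_one (by positivity)]
  have h4 : e ^ 6 * Real.sin x ^ 2 ≤ e ^ 6 * 1 := mul_le_mul_of_nonneg_left h1 (by positivity)
  have h5 : 0 ≤ e ^ 4 * ((e ^ 2 - 1 / 2) ^ 2 + 7 / 4) := by positivity
  nlinarith

noncomputable def one (e : ℝ) (q : ℝ × ℝ) : ℝ := 1 - Real.sin q.2 * WW e q.1

theorem one_bounds (e : ℝ) (q : ℝ × ℝ) : 0 < one e q ∧ one e q < 2 := by
  have h : |Real.sin q.2 * WW e q.1| < 1 := by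
    rw [abs_mul]
    exact lt_of_le_of_lt (mul_le_of_le_one_left (abs_nonneg _) (Real.abs_sin_le_one _))
      (abs_WW_lt e q.1)
  obtain ⟨h1, h2⟩ := abs_lt.1 h
  unfold one
  constructor <;> linarith

noncomputable def io (z : ℝ × (ℝ × ℝ)) : ℝ := (one z.1 z.2)⁻¹

@[fun_prop] theorem contDiff_io : ContDiff ℝ ∞ io :=
  ContDiff.inv (by unfold one WW; fun_prop) fun z => (one_bounds z.1 z.2).1.ne'

/-- profile of the bending across the closed asymptotic curves -/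
noncomputable def gg (t : ℝ) : ℝ := t * expNegInvGlue (1 - 16 * t ^ 2)

@[fun_prop] theorem contDiff_gg : ContDiff ℝ ∞ gg := by unfold gg; fun_prop

noncomputable def gg' (t : ℝ) : ℝ := deriv gg t

@[fun_prop] theorem contDiff_gg' : ContDiff ℝ ∞ gg' := sm1_deriv contDiff_gg

theorem hasDerivAt_gg (t : ℝ) : HasDerivAt gg (gg' t) t := (sm1_diff contDiff_gg t).hasDerivAt

theorem gg'_zero : gg' 0 = expNegInvGlue 1 := by
  have h : DifferentiableAt ℝ (fun t : ℝ => expNegInvGlue (1 - 16 * t ^ 2)) 0 :=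
    sm1_diff (by fun_prop) 0
  have h2 := (hasDerivAt_id (0 : ℝ)).mul h.hasDerivAt
  have h3 := (hasDerivAt_gg 0).unique h2
  simpa using h3

theorem gg_eq_zero {t : ℝ} (ht : 1 < 16 * t ^ 2) : gg t = 0 := by
  unfold gg
  rw [expNegInvGlue.zero_of_nonpos (by linarith), mul_zero]

theorem gg'_eq_zero {t : ℝ} (ht : 1 < 16 * t ^ 2) : gg' t = 0 := by
  have h : gg =ᶠ[𝓝 t] fun _ => 0 := by
    have hc : Continuous fun t : ℝ => 16 * t ^ 2 := by fun_prop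
    filter_upwards [hc.continuousAt.eventually (lt_mem_nhds ht)] with y hy using gg_eq_zero hy
  unfold gg'
  rw [h.deriv_eq]
  simp

noncomputable def tt (e : ℝ) (q : ℝ × ℝ) : ℝ := Real.sin q.2 * io (e, q)
noncomputable def GG (e : ℝ) (q : ℝ × ℝ) : ℝ := gg (tt e q) * (one e q * one e q)
noncomputable def th (e : ℝ) (q : ℝ × ℝ) : ℝ :=
  gg' (tt e q) - 2 * WW e q.1 * gg (tt e q) * one e q

/-- the infinitesimal bending -/
noncomputable def z1 (e : ℝ) (q : ℝ × ℝ) : ℝ :=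
  th e q * (n1 e q.1 + e * Real.sin q.2 * m1 e q.1) - 2 * e * GG e q * m1 e q.1
noncomputable def z2 (e : ℝ) (q : ℝ × ℝ) : ℝ :=
  th e q * (n2 e q.1 + e * Real.sin q.2 * m2 e q.1) - 2 * e * GG e q * m2 e q.1
noncomputable def z3 (e : ℝ) (q : ℝ × ℝ) : ℝ :=
  th e q * (n3 e q.1 + e * Real.sin q.2 * m3 e q.1) - 2 * e * GG e q * m3 e q.1

theorem z_eq_zero (e : ℝ) {q : ℝ × ℝ} (h : 1 / 4 < Real.sin q.2 ^ 2) :
    z1 e q = 0 ∧ z2 e q = 0 ∧ z3 e q = 0 := by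
  obtain ⟨h1, h2⟩ := one_bounds e q
  have ht : 1 < 16 * tt e q ^ 2 := by
    have e1 : tt e q ^ 2 = Real.sin q.2 ^ 2 / one e q ^ 2 := by
      unfold tt io; field_simp
    rw [e1, ← mul_div_assoc, lt_div_iff₀ (by positivity)]
    nlinarith
  simp only [z1, z2, z3, th, GG, gg_eq_zero ht, gg'_eq_zero ht]
  simp

noncomputable def chi (s : ℝ) : ℝ := Real.smoothTransition (10 * Real.cos s - 6)

theorem chi_eq_zero {s : ℝ} (hs : Real.cos s ≤ 3 / 5) : chi s = 0 :=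
  Real.smoothTransition.zero_of_nonpos (by linarith)

theorem chi_eq_one {s : ℝ} (hs : 7 / 10 ≤ Real.cos s) : chi s = 1 :=
  Real.smoothTransition.one_of_one_le (by linarith)

noncomputable def aF (τ e : ℝ) (q : ℝ × ℝ) : ℝ :=
  chi q.2 * (aa0 e q.1 + Real.sin q.2 * aa1 e q.1 + τ * z1 e q)
noncomputable def wF (τ e : ℝ) (q : ℝ × ℝ) : ℝ :=
  chi q.2 * (ww0 e q.1 + Real.sin q.2 * ww1 e q.1 + τ * e * (z2 e q + e * z3 e q))
noncomputable def cF (τ e : ℝ) (q : ℝ × ℝ) : ℝ :=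
  chi q.2 * (cc0 e q.1 + Real.sin q.2 * cc1 e q.1 + τ * e ^ 5 * z3 e q)

/-- the surface in the rotating frame -/
noncomputable def AA (τ e : ℝ) (q : ℝ × ℝ) : ℝ := al e q.2 + e ^ 6 * aF τ e q
noncomputable def BB (τ e : ℝ) (q : ℝ × ℝ) : ℝ :=
  -e * tw q.2 + e ^ 5 * wF τ e q - e ^ 2 * cF τ e q
noncomputable def CC (τ e : ℝ) (q : ℝ × ℝ) : ℝ := Real.sin q.2 + e * cF τ e q

noncomputable def Z1 (e : ℝ) (q : ℝ × ℝ) : ℝ := chi q.2 * z1 e q
noncomputable def Z2 (e : ℝ) (q : ℝ × ℝ) : ℝ := chi q.2 * z2 e q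
noncomputable def Z3 (e : ℝ) (q : ℝ × ℝ) : ℝ := chi q.2 * z3 e q

theorem AA_eq (τ e : ℝ) (q : ℝ × ℝ) : AA τ e q = AA 0 e q + τ * e ^ 6 * Z1 e q := by
  unfold AA aF Z1; ring
theorem BB_eq (τ e : ℝ) (q : ℝ × ℝ) : BB τ e q = BB 0 e q + τ * e ^ 6 * Z2 e q := by
  unfold BB wF cF Z2; ring
theorem CC_eq (τ e : ℝ) (q : ℝ × ℝ) : CC τ e q = CC 0 e q + τ * e ^ 6 * Z3 e q := by
  unfold CC cF Z3; ring

theorem fam_th : ContDiff ℝ ∞ fun q : ℝ × (ℝ × ℝ) => th q.1 q.2 := by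
  unfold th tt one WW; fun_prop
theorem fam_GG : ContDiff ℝ ∞ fun q : ℝ × (ℝ × ℝ) => GG q.1 q.2 := by
  unfold GG tt one WW; fun_prop
theorem fam_z1 : ContDiff ℝ ∞ fun q : ℝ × (ℝ × ℝ) => z1 q.1 q.2 := by
  have := fam_th
  have := fam_GG
  unfold z1 n1 m1 mm; fun_prop
theorem fam_z2 : ContDiff ℝ ∞ fun q : ℝ × (ℝ × ℝ) => z2 q.1 q.2 := by
  have := fam_th
  have := fam_GG
  unfold z2 n2 m2 qq; fun_prop
theorem fam_z3 : ContDiff ℝ ∞ fun q : ℝ × (ℝ × ℝ) => z3 q.1 q.2 := by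
  have := fam_th
  have := fam_GG
  unfold z3 n3 m3; fun_prop
theorem fam_aF (τ : ℝ) : ContDiff ℝ ∞ fun q : ℝ × (ℝ × ℝ) => aF τ q.1 q.2 := by
  have := fam_z1
  unfold aF chi aa0 aa1 qq; fun_prop
theorem fam_wF (τ : ℝ) : ContDiff ℝ ∞ fun q : ℝ × (ℝ × ℝ) => wF τ q.1 q.2 := by
  have := fam_z2
  have := fam_z3
  unfold wF chi ww0 ww1 qq; fun_prop
theorem fam_cF (τ : ℝ) : ContDiff ℝ ∞ fun q : ℝ × (ℝ × ℝ) => cF τ q.1 q.2 := by
  have := fam_z3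
  unfold cF chi cc0 cc1 mm qq; fun_prop
theorem fam_AA (τ : ℝ) : ContDiff ℝ ∞ fun q : ℝ × (ℝ × ℝ) => AA τ q.1 q.2 := by
  have := fam_aF τ
  unfold AA al; fun_prop
theorem fam_BB (τ : ℝ) : ContDiff ℝ ∞ fun q : ℝ × (ℝ × ℝ) => BB τ q.1 q.2 := by
  have := fam_wF τ
  have := fam_cF τ
  unfold BB tw; fun_prop
theorem fam_CC (τ : ℝ) : ContDiff ℝ ∞ fun q : ℝ × (ℝ × ℝ) => CC τ q.1 q.2 := by
  have := fam_cF τ
  unfold CC; fun_prop
theorem fam_Z1 : ContDiff ℝ ∞ fun q : ℝ × (ℝ × ℝ) => Z1 q.1 q.2 := by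
  have := fam_z1
  unfold Z1 chi; fun_prop
theorem fam_Z2 : ContDiff ℝ ∞ fun q : ℝ × (ℝ × ℝ) => Z2 q.1 q.2 := by
  have := fam_z2
  unfold Z2 chi; fun_prop
theorem fam_Z3 : ContDiff ℝ ∞ fun q : ℝ × (ℝ × ℝ) => Z3 q.1 q.2 := by
  have := fam_z3
  unfold Z3 chi; fun_prop

/-- double periodicity -/
def Per2 (f : ℝ × ℝ → ℝ) : Prop :=
  ∀ (p : ℝ × ℝ) (m n : ℤ), f (p.1 + m * (2 * Real.pi), p.2 + n * (2 * Real.pi)) = f p

theorem Per2.per {f : ℝ × ℝ → ℝ} (h : Per2 f) : Per f := by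
  intro p
  have := h p 1 0
  simp only [Int.cast_one, one_mul, Int.cast_zero, zero_mul, add_zero] at this
  rw [← this]
  congr 1
  ext <;> simp

theorem Per2.sc {f : ℝ × ℝ → ℝ} (h : Per2 f) (k : ℤ) : Per2 (sc k f) := by
  intro p m n
  have := h (k * p.1, p.2) (k * m) n
  simp only [MP_956cc7_gt.sc]
  rw [← this]
  congr 2
  push_cast
  ring

theorem per_z (e : ℝ) : Per2 (z1 e) ∧ Per2 (z2 e) ∧ Per2 (z3 e) := by
  refine ⟨?_, ?_, ?_⟩ <;> intro p m n <;>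
    simp only [z1, z2, z3, th, GG, tt, io, one, WW, n1, n2, n3, m1, m2, m3, mm, qq,
      Real.cos_add_int_mul_two_pi, Real.sin_add_int_mul_two_pi]

theorem per_aF (τ e : ℝ) : Per2 (aF τ e) := by
  intro p m n
  simp only [aF, (per_z e).1 p m n, chi, aa0, aa1, qq,
    Real.cos_add_int_mul_two_pi, Real.sin_add_int_mul_two_pi]

theorem per_wF (τ e : ℝ) : Per2 (wF τ e) := by
  intro p m n
  simp only [wF, (per_z e).2.1 p m n, (per_z e).2.2 p m n, chi, ww0, ww1, qq,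
    Real.cos_add_int_mul_two_pi, Real.sin_add_int_mul_two_pi]

theorem per_cF (τ e : ℝ) : Per2 (cF τ e) := by
  intro p m n
  simp only [cF, (per_z e).2.2 p m n, chi, cc0, cc1, mm, qq,
    Real.cos_add_int_mul_two_pi, Real.sin_add_int_mul_two_pi]

theorem per_AA (τ e : ℝ) : Per2 (AA τ e) := by
  intro p m n
  simp only [AA, per_aF τ e p m n, al, Real.cos_add_int_mul_two_pi]

theorem per_BB (τ e : ℝ) : Per2 (BB τ e) := by
  intro p m n
  simp only [BB, per_wF τ e p m n, per_cF τ e p m n, tw, Real.cos_add_int_mul_two_pi,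
    Real.sin_add_int_mul_two_pi]

theorem per_CC (τ e : ℝ) : Per2 (CC τ e) := by
  intro p m n
  simp only [CC, per_cF τ e p m n, Real.sin_add_int_mul_two_pi]

theorem per_Z (e : ℝ) : Per2 (Z1 e) ∧ Per2 (Z2 e) ∧ Per2 (Z3 e) := by
  refine ⟨?_, ?_, ?_⟩ <;> intro p m n <;>
    simp only [Z1, Z2, Z3, (per_z e).1 p m n, (per_z e).2.1 p m n, (per_z e).2.2 p m n, chi,
      Real.cos_add_int_mul_two_pi]

end Pool.Agent.P.MP_956cc7_gt
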