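import Mathlib

set_option autoImplicit false
open scoped ContDiff Topology
open Filter

namespace Pool.Agent.P.MP_956cc7_gt

/-- derivative in the first variable -/
noncomputable def pu (f : ℝ × ℝ → ℝ) : ℝ × ℝ → ℝ := fun p => fderiv ℝ f p (1, 0)

/-- derivative in the second variable -/
noncomputable def ps (f : ℝ × ℝ → ℝ) : ℝ × ℝ → ℝ := fun p => fderiv ℝ f p (0, 1)

@[fun_prop]
theorem contDiff_pu {f : ℝ × ℝ → ℝ} (hf : ContDiff ℝ ∞ f) : ContDiff ℝ ∞ (pu f) :=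
  (hf.fderiv_right (m := ∞) (by simp)).clm_apply contDiff_const

@[fun_prop]
theorem contDiff_ps {f : ℝ × ℝ → ℝ} (hf : ContDiff ℝ ∞ f) : ContDiff ℝ ∞ (ps f) :=
  (hf.fderiv_right (m := ∞) (by simp)).clm_apply contDiff_const

theorem sm_diff {f : ℝ × ℝ → ℝ} (hf : ContDiff ℝ ∞ f) (p : ℝ × ℝ) : DifferentiableAt ℝ f p :=
  hf.differentiable (by simp) p

theorem fderiv_eq_pu_ps (f : ℝ × ℝ → ℝ) (p v : ℝ × ℝ) :
    fderiv ℝ f p v = v.1 * pu f p + v.2 * ps f p := by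
  have hv : v = v.1 • ((1 : ℝ), (0 : ℝ)) + v.2 • ((0 : ℝ), (1 : ℝ)) := by ext <;> simp
  conv_lhs => rw [hv]
  simp only [map_add, map_smul, smul_eq_mul, pu, ps]

theorem hasDerivAt_line {f : ℝ × ℝ → ℝ} (hf : ContDiff ℝ ∞ f) (p v : ℝ × ℝ) (t : ℝ) :
    HasDerivAt (fun t : ℝ => f (p + t • v))
      (v.1 * pu f (p + t • v) + v.2 * ps f (p + t • v)) t := by
  rw [← fderiv_eq_pu_ps]
  have h1 : HasDerivAt (fun t : ℝ => p + t • v) v t := by
    simpa using ((hasDerivAt_id t).smul_const v).const_add p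
  exact (sm_diff hf _).hasFDerivAt.comp_hasDerivAt t h1

theorem hasDerivAt_pu {f : ℝ × ℝ → ℝ} {p : ℝ × ℝ} (hf : DifferentiableAt ℝ f p) :
    HasDerivAt (fun u : ℝ => f (u, p.2)) (pu f p) p.1 := by
  have h1 : HasDerivAt (fun u : ℝ => (u, p.2)) ((1 : ℝ), (0 : ℝ)) p.1 :=
    (hasDerivAt_id p.1).prodMk (hasDerivAt_const _ _)
  exact hf.hasFDerivAt.comp_hasDerivAt p.1 h1

theorem hasDerivAt_ps {f : ℝ × ℝ → ℝ} {p : ℝ × ℝ} (hf : DifferentiableAt ℝ f p) :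
    HasDerivAt (fun s : ℝ => f (p.1, s)) (ps f p) p.2 := by
  have h1 : HasDerivAt (fun s : ℝ => (p.1, s)) ((0 : ℝ), (1 : ℝ)) p.2 :=
    (hasDerivAt_const _ _).prodMk (hasDerivAt_id p.2)
  exact hf.hasFDerivAt.comp_hasDerivAt p.2 h1

theorem pu_eq {f : ℝ × ℝ → ℝ} {p : ℝ × ℝ} (hf : DifferentiableAt ℝ f p) {d : ℝ}
    (h : HasDerivAt (fun u : ℝ => f (u, p.2)) d p.1) : pu f p = d :=
  (hasDerivAt_pu hf).unique h

theorem ps_eq {f : ℝ × ℝ → ℝ} {p : ℝ × ℝ} (hf : DifferentiableAt ℝ f p) {d : ℝ}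
    (h : HasDerivAt (fun s : ℝ => f (p.1, s)) d p.2) : ps f p = d :=
  (hasDerivAt_ps hf).unique h

theorem pu_ps {f : ℝ × ℝ → ℝ} (hf : ContDiff ℝ ∞ f) : pu (ps f) = ps (pu f) := by
  funext p
  have hs : IsSymmSndFDerivAt ℝ f p := hf.contDiffAt.isSymmSndFDerivAt
    (by simpa using (WithTop.coe_le_coe.2 (le_top : (2 : ℕ∞) ≤ ⊤)))
  have hd : DifferentiableAt ℝ (fderiv ℝ f) p :=
    (hf.fderiv_right (m := ∞) (by simp)).differentiable (by simp) p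
  have e : ∀ v w : ℝ × ℝ, fderiv ℝ (fun q => fderiv ℝ f q w) p v = fderiv ℝ (fderiv ℝ f) p v w := by
    intro v w
    rw [fderiv_clm_apply hd (differentiableAt_const _)]
    simp
  show fderiv ℝ (fun q => fderiv ℝ f q (0, 1)) p (1, 0) =
    fderiv ℝ (fun q => fderiv ℝ f q (1, 0)) p (0, 1)
  rw [e, e]
  exact hs _ _

theorem pu_congr {f g : ℝ × ℝ → ℝ} {p : ℝ × ℝ} (h : f =ᶠ[𝓝 p] g) : pu f =ᶠ[𝓝 p] pu g := by
  filter_upwards [h.fderiv (𝕜 := ℝ)] with q hq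
  simp only [pu, hq]

theorem ps_congr {f g : ℝ × ℝ → ℝ} {p : ℝ × ℝ} (h : f =ᶠ[𝓝 p] g) : ps f =ᶠ[𝓝 p] ps g := by
  filter_upwards [h.fderiv (𝕜 := ℝ)] with q hq
  simp only [ps, hq]

section rules
variable {f g : ℝ × ℝ → ℝ}

theorem pu_add (hf : ContDiff ℝ ∞ f) (hg : ContDiff ℝ ∞ g) :
    pu (fun p => f p + g p) = fun p => pu f p + pu g p := by
  funext p
  exact pu_eq ((sm_diff hf p).add (sm_diff hg p))
    ((hasDerivAt_pu (sm_diff hf p)).add (hasDerivAt_pu (sm_diff hg p)))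

theorem ps_add (hf : ContDiff ℝ ∞ f) (hg : ContDiff ℝ ∞ g) :
    ps (fun p => f p + g p) = fun p => ps f p + ps g p := by
  funext p
  exact ps_eq ((sm_diff hf p).add (sm_diff hg p))
    ((hasDerivAt_ps (sm_diff hf p)).add (hasDerivAt_ps (sm_diff hg p)))

theorem pu_sub (hf : ContDiff ℝ ∞ f) (hg : ContDiff ℝ ∞ g) :
    pu (fun p => f p - g p) = fun p => pu f p - pu g p := by
  funext p
  exact pu_eq ((sm_diff hf p).sub (sm_diff hg p))
    ((hasDerivAt_pu (sm_diff hf p)).sub (hasDerivAt_pu (sm_diff hg p)))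

theorem ps_sub (hf : ContDiff ℝ ∞ f) (hg : ContDiff ℝ ∞ g) :
    ps (fun p => f p - g p) = fun p => ps f p - ps g p := by
  funext p
  exact ps_eq ((sm_diff hf p).sub (sm_diff hg p))
    ((hasDerivAt_ps (sm_diff hf p)).sub (hasDerivAt_ps (sm_diff hg p)))

theorem pu_cmul (c : ℝ) (hf : ContDiff ℝ ∞ f) :
    pu (fun p => c * f p) = fun p => c * pu f p := by
  funext p
  exact pu_eq ((sm_diff hf p).const_mul c) ((hasDerivAt_pu (sm_diff hf p)).const_mul c)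

theorem ps_cmul (c : ℝ) (hf : ContDiff ℝ ∞ f) :
    ps (fun p => c * f p) = fun p => c * ps f p := by
  funext p
  exact ps_eq ((sm_diff hf p).const_mul c) ((hasDerivAt_ps (sm_diff hf p)).const_mul c)

theorem pu_cadd (c : ℝ) (hf : ContDiff ℝ ∞ f) :
    pu (fun p => c + f p) = pu f := by
  funext p
  exact pu_eq ((sm_diff hf p).const_add c) ((hasDerivAt_pu (sm_diff hf p)).const_add c)

theorem ps_cadd (c : ℝ) (hf : ContDiff ℝ ∞ f) :
    ps (fun p => c + f p) = ps f := by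
  funext p
  exact ps_eq ((sm_diff hf p).const_add c) ((hasDerivAt_ps (sm_diff hf p)).const_add c)

theorem pu_snd {φ : ℝ → ℝ} (hφ : Differentiable ℝ φ) :
    pu (fun p => φ p.2) = fun _ => 0 := by
  funext p
  exact pu_eq (by fun_prop) (hasDerivAt_const p.1 (φ p.2))

theorem ps_snd {φ : ℝ → ℝ} (hφ : Differentiable ℝ φ) :
    ps (fun p => φ p.2) = fun p => deriv φ p.2 := by
  funext p
  exact ps_eq (by fun_prop) (hφ p.2).hasDerivAt

theorem pu_const (c : ℝ) : pu (fun _ => c) = fun _ => 0 := by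
  funext p; simp [pu]

theorem ps_const (c : ℝ) : ps (fun _ => c) = fun _ => 0 := by
  funext p; simp [ps]

end rules

/-- rescaling of the first variable -/
def sc (k : ℝ) (f : ℝ × ℝ → ℝ) : ℝ × ℝ → ℝ := fun p => f (k * p.1, p.2)

@[fun_prop]
theorem contDiff_sc (k : ℝ) {f : ℝ × ℝ → ℝ} (hf : ContDiff ℝ ∞ f) : ContDiff ℝ ∞ (sc k f) := by
  unfold sc; fun_prop

theorem pu_sc (k : ℝ) {f : ℝ × ℝ → ℝ} (hf : ContDiff ℝ ∞ f) :
    pu (sc k f) = fun p => k * sc k (pu f) p := by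
  funext p
  refine pu_eq (sm_diff (contDiff_sc k hf) p) ?_
  have h1 := hasDerivAt_pu (p := (k * p.1, p.2)) (sm_diff hf _)
  have h2 : HasDerivAt (fun u : ℝ => k * u) k p.1 := by
    simpa using (hasDerivAt_id p.1).const_mul k
  have h3 := HasDerivAt.comp p.1 (h₂ := fun u : ℝ => f (u, p.2)) h1 h2
  rw [mul_comm k]
  exact h3

theorem ps_sc (k : ℝ) {f : ℝ × ℝ → ℝ} (hf : ContDiff ℝ ∞ f) :
    ps (sc k f) = sc k (ps f) := by
  funext p
  refine ps_eq (sm_diff (contDiff_sc k hf) p) ?_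
  exact hasDerivAt_ps (p := (k * p.1, p.2)) (sm_diff hf _)

/-- rotating frame, first component -/
noncomputable def rX (A B : ℝ × ℝ → ℝ) : ℝ × ℝ → ℝ :=
  fun p => Real.cos p.1 * A p - Real.sin p.1 * B p

/-- rotating frame, second component -/
noncomputable def rY (A B : ℝ × ℝ → ℝ) : ℝ × ℝ → ℝ :=
  fun p => Real.sin p.1 * A p + Real.cos p.1 * B p

section rot
variable {A B : ℝ × ℝ → ℝ}

@[fun_prop]
theorem contDiff_rX (hA : ContDiff ℝ ∞ A) (hB : ContDiff ℝ ∞ B) : ContDiff ℝ ∞ (rX A B) := by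
  unfold rX; fun_prop

@[fun_prop]
theorem contDiff_rY (hA : ContDiff ℝ ∞ A) (hB : ContDiff ℝ ∞ B) : ContDiff ℝ ∞ (rY A B) := by
  unfold rY; fun_prop

theorem pu_rX (hA : ContDiff ℝ ∞ A) (hB : ContDiff ℝ ∞ B) :
    pu (rX A B) = rX (fun p => pu A p - B p) (fun p => pu B p + A p) := by
  funext p
  refine pu_eq (sm_diff (contDiff_rX hA hB) p) ?_
  have h := ((Real.hasDerivAt_cos p.1).mul (hasDerivAt_pu (sm_diff hA p))).sub
    ((Real.hasDerivAt_sin p.1).mul (hasDerivAt_pu (sm_diff hB p)))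
  refine h.congr_deriv ?_
  simp only [rX]; ring

theorem pu_rY (hA : ContDiff ℝ ∞ A) (hB : ContDiff ℝ ∞ B) :
    pu (rY A B) = rY (fun p => pu A p - B p) (fun p => pu B p + A p) := by
  funext p
  refine pu_eq (sm_diff (contDiff_rY hA hB) p) ?_
  have h := ((Real.hasDerivAt_sin p.1).mul (hasDerivAt_pu (sm_diff hA p))).add
    ((Real.hasDerivAt_cos p.1).mul (hasDerivAt_pu (sm_diff hB p)))
  refine h.congr_deriv ?_
  simp only [rY]; ring

theorem ps_rX (hA : ContDiff ℝ ∞ A) (hB : ContDiff ℝ ∞ B) :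
    ps (rX A B) = rX (ps A) (ps B) := by
  funext p
  refine ps_eq (sm_diff (contDiff_rX hA hB) p) ?_
  exact ((hasDerivAt_ps (sm_diff hA p)).const_mul (Real.cos p.1)).sub
    ((hasDerivAt_ps (sm_diff hB p)).const_mul (Real.sin p.1))

theorem ps_rY (hA : ContDiff ℝ ∞ A) (hB : ContDiff ℝ ∞ B) :
    ps (rY A B) = rY (ps A) (ps B) := by
  funext p
  refine ps_eq (sm_diff (contDiff_rY hA hB) p) ?_
  exact ((hasDerivAt_ps (sm_diff hA p)).const_mul (Real.sin p.1)).add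
    ((hasDerivAt_ps (sm_diff hB p)).const_mul (Real.cos p.1))

end rot

/-- joint smoothness of the derivatives of a family -/
theorem contDiff_pu_fam {a : ℝ → ℝ × ℝ → ℝ}
    (ha : ContDiff ℝ ∞ fun q : ℝ × (ℝ × ℝ) => a q.1 q.2) :
    ContDiff ℝ ∞ fun q : ℝ × (ℝ × ℝ) => pu (a q.1) q.2 := by
  have h : ContDiff ℝ ∞ fun q : ℝ × (ℝ × ℝ) => fderiv ℝ (a q.1) q.2 := by
    refine ContDiff.fderiv (f := fun q : ℝ × (ℝ × ℝ) => a q.1) (m := ∞) ?_ contDiff_snd (by simp)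
    exact ha.comp (f := fun z : (ℝ × (ℝ × ℝ)) × (ℝ × ℝ) => (z.1.1, z.2)) (by fun_prop)
  exact h.clm_apply contDiff_const

theorem contDiff_ps_fam {a : ℝ → ℝ × ℝ → ℝ}
    (ha : ContDiff ℝ ∞ fun q : ℝ × (ℝ × ℝ) => a q.1 q.2) :
    ContDiff ℝ ∞ fun q : ℝ × (ℝ × ℝ) => ps (a q.1) q.2 := by
  have h : ContDiff ℝ ∞ fun q : ℝ × (ℝ × ℝ) => fderiv ℝ (a q.1) q.2 := by
    refine ContDiff.fderiv (f := fun q : ℝ × (ℝ × ℝ) => a q.1) (m := ∞) ?_ contDiff_snd (by simp)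
    exact ha.comp (f := fun z : (ℝ × (ℝ × ℝ)) × (ℝ × ℝ) => (z.1.1, z.2)) (by fun_prop)
  exact h.clm_apply contDiff_const

theorem contDiff_fam {a : ℝ → ℝ × ℝ → ℝ}
    (ha : ContDiff ℝ ∞ fun q : ℝ × (ℝ × ℝ) => a q.1 q.2) (e : ℝ) : ContDiff ℝ ∞ (a e) :=
  ha.comp (f := fun p : ℝ × ℝ => (e, p)) (by fun_prop)

/-- periodicity in the first variable -/
def Per (f : ℝ × ℝ → ℝ) : Prop := ∀ p : ℝ × ℝ, f (p + (2 * Real.pi, 0)) = f p

theorem Per.pu {f : ℝ × ℝ → ℝ} (h : Per f) : Per (pu f) := by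
  intro p
  have e : (fun x => f (x + (2 * Real.pi, 0))) = f := funext h
  simp only [MP_956cc7_gt.pu]
  rw [← fderiv_comp_add_right, e]

theorem Per.ps {f : ℝ × ℝ → ℝ} (h : Per f) : Per (ps f) := by
  intro p
  have e : (fun x => f (x + (2 * Real.pi, 0))) = f := funext h
  simp only [MP_956cc7_gt.ps]
  rw [← fderiv_comp_add_right, e]

end Pool.Agent.P.MP_956cc7_gt
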