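import Pool.Agent.P.MP_956cc7_gt.Main

set_option autoImplicit false
open scoped ContDiff Topology Manifold
open Filter Set

namespace Pool.Agent.P.MP_956cc7_gt

theorem continuous_desc_FF (τ e : ℝ) (k : ℤ) : Continuous (desc (FF τ e k)) :=
  (contMDiff_desc (contDiff_FF τ e k) (dper_FF τ e k)).continuous

theorem tight_FF {τ e : ℝ} {k : ℤ} (hk : (k : ℝ) * e ^ 4 = 1 + e ^ 4) (hg : Good τ e)
    (ℓ : E3 →L[ℝ] ℝ) (c : ℝ) : IsPreconnected {p : T2 | c < ℓ (desc (FF τ e k) p)} :=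
  tight_of (continuous_desc_FF τ e k) outer
    (outer_conn (1 + e ^ 4 / 2) (by positivity) (desc_outer τ e k))
    (localMax_mem_outer hk hg) ℓ c

theorem imm_FF {τ e : ℝ} {k : ℤ} (hk : (k : ℝ) * e ^ 4 = 1 + e ^ 4) (hg : Good τ e) (x : T2) :
    Function.Injective (mfderiv ((𝓡 1).prod (𝓡 1)) 𝓘(ℝ, E3) (desc (FF τ e k)) x) :=
  injective_mfderiv_desc (contDiff_FF τ e k) (dper_FF τ e k) x
    (injective_fderiv_vec (contDiff_FX τ e k) (contDiff_FY τ e k) (contDiff_FZ τ e k)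
      (hg k hk (lift x) (lift_mem x)).1)

theorem not_congr_FF {e : ℝ} {k : ℤ} (he : e ≠ 0) (hk : (k : ℝ) * e ^ 4 = 1 + e ^ 4)
    (hg1 : Good 1 e) (hg2 : Good (-1) e)
    (hrz : ∀ x, ∀ s ∈ Icc (-Real.pi) Real.pi,
      nsq 1 e (x, s) ≤ nsq 1 e (0, 0) → 0 < rz e (x, s))
    (A : E3 ≃ᵃⁱ[ℝ] E3) (ψ : T2 → T2) (hψ : Function.Surjective ψ)
    (h : ∀ p, desc (FF (-1) e k) (ψ p) = A (desc (FF 1 e k) p)) : False := by
  refine not_congr (continuous_desc_FF 1 e k) (continuous_desc_FF (-1) e k) outer ?_ ?_ ?_ ?_ ?_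
    A ψ hψ h
  · intro x hx
    rw [desc_outer 1 e k x hx, desc_outer (-1) e k x hx]
  · intro x hx
    have hx' : ((-x.1, x.2⁻¹) : T2) ∈ outer := by
      show ((x.2⁻¹ : Circle) : ℂ).re ≤ 0
      rw [Circle.coe_inv_eq_conj, Complex.conj_re]
      exact hx
    refine ⟨(-x.1, x.2⁻¹), ?_⟩
    rw [desc_outer 1 e k x hx, desc_outer 1 e k _ hx']
    simp only [Circle.coe_inv_eq_conj, Complex.conj_re, Complex.conj_im, Circle.coe_neg,
      Complex.neg_re, Complex.neg_im]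
    ext i
    fin_cases i <;> simp
  · intro y hy
    exact localMax_mem_outer hk hg1 0 1 one_pos y (by simpa using hy)
  · intro y hy
    exact localMax_mem_outer hk hg2 0 1 one_pos y (by simpa using hy)
  · intro x hx
    have h1 := hx (ex (0, 0))
    rw [desc_ex (dper_FF 1 e k), ← sq_le_sq₀ (norm_nonneg _) (norm_nonneg _)] at h1
    rw [← sq_lt_sq₀ (norm_nonneg _) (norm_nonneg _)]
    simp only [desc, norm_sq_FF, mul_zero] at h1 ⊢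
    have h2 := hrz _ _ (lift_mem x) h1
    have h3 := nsq_sub e ((k : ℝ) * (lift x).1, (lift x).2)
    have h4 : 0 < 4 * e ^ 6 * rz e ((k : ℝ) * (lift x).1, (lift x).2) := by positivity
    linarith

theorem final {e : ℝ} {k : ℤ} (he : e ≠ 0) (hk : (k : ℝ) * e ^ 4 = 1 + e ^ 4)
    (hg1 : Good 1 e) (hg2 : Good (-1) e)
    (hrz : ∀ x, ∀ s ∈ Icc (-Real.pi) Real.pi,
      nsq 1 e (x, s) ≤ nsq 1 e (0, 0) → 0 < rz e (x, s))
    (H : ContMDiff ((𝓡 1).prod (𝓡 1)) 𝓘(ℝ, E3) ∞ (desc (FF 1 e k)) →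
      ContMDiff ((𝓡 1).prod (𝓡 1)) 𝓘(ℝ, E3) ∞ (desc (FF (-1) e k)) →
      (∀ p : T2, Function.Injective (mfderiv ((𝓡 1).prod (𝓡 1)) 𝓘(ℝ, E3) (desc (FF 1 e k)) p)) →
      (∀ p : T2,
        Function.Injective (mfderiv ((𝓡 1).prod (𝓡 1)) 𝓘(ℝ, E3) (desc (FF (-1) e k)) p)) →
      (∀ (ℓ : E3 →L[ℝ] ℝ) (c : ℝ), IsPreconnected {p : T2 | c < ℓ (desc (FF 1 e k) p)}) →
      (∀ (ℓ : E3 →L[ℝ] ℝ) (c : ℝ), IsPreconnected {p : T2 | c < ℓ (desc (FF (-1) e k) p)}) →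
      (∀ (p : T2) (v : EuclideanSpace ℝ (Fin 1) × EuclideanSpace ℝ (Fin 1)),
        @Norm.norm E3 _ (mfderiv ((𝓡 1).prod (𝓡 1)) 𝓘(ℝ, E3) (desc (FF 1 e k)) p v) =
          @Norm.norm E3 _ (mfderiv ((𝓡 1).prod (𝓡 1)) 𝓘(ℝ, E3) (desc (FF (-1) e k)) p v)) →
      ∃ (A : E3 ≃ᵃⁱ[ℝ] E3) (ψ : T2 → T2), Function.Surjective ψ ∧
        ∀ p, desc (FF (-1) e k) (ψ p) = A (desc (FF 1 e k) p)) : False := by
  obtain ⟨A, ψ, hψ, h⟩ := H (contMDiff_desc (contDiff_FF 1 e k) (dper_FF 1 e k))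
    (contMDiff_desc (contDiff_FF (-1) e k) (dper_FF (-1) e k)) (imm_FF hk hg1) (imm_FF hk hg2)
    (tight_FF hk hg1) (tight_FF hk hg2) (by
      intro p v
      rw [mfderiv_desc (contDiff_FF 1 e k) (dper_FF 1 e k) p v,
        mfderiv_desc (contDiff_FF (-1) e k) (dper_FF (-1) e k) p v]
      exact iso_FF he hk _ _)
  exact not_congr_FF he hk hg1 hg2 hrz A ψ hψ h

end Pool.Agent.P.MP_956cc7_gt
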