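import Pool.Agent.P.MP_956cc7_gt.Band

set_option autoImplicit false
open scoped ContDiff Topology
open Filter Set

namespace Pool.Agent.P.MP_956cc7_gt

/-- `(a, b, c)` is an infinitesimal bending of `(A, B, C)` at `p`, in the rotating frame -/
def Orth (A B C a b c : ℝ × ℝ → ℝ) (p : ℝ × ℝ) : Prop :=
  (pu A p - B p) * (pu a p - b p) + (pu B p + A p) * (pu b p + a p) + pu C p * pu c p = 0 ∧
  ps A p * ps a p + ps B p * ps b p + ps C p * ps c p = 0 ∧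
  (pu A p - B p) * ps a p + (pu B p + A p) * ps b p + pu C p * ps c p +
    (ps A p * (pu a p - b p) + ps B p * (pu b p + a p) + ps C p * pu c p) = 0

theorem Orth.congr {A B C a b c A' B' C' a' b' c' : ℝ × ℝ → ℝ} {p : ℝ × ℝ}
    (h : Orth A' B' C' a' b' c' p) (hA : A =ᶠ[𝓝 p] A') (hB : B =ᶠ[𝓝 p] B') (hC : C =ᶠ[𝓝 p] C')
    (ha : a =ᶠ[𝓝 p] a') (hb : b =ᶠ[𝓝 p] b') (hc : c =ᶠ[𝓝 p] c') : Orth A B C a b c p := by
  unfold Orth
  rw [(pu_congr hA).eq_of_nhds, (pu_congr hB).eq_of_nhds, (pu_congr hC).eq_of_nhds,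
    (ps_congr hA).eq_of_nhds, (ps_congr hB).eq_of_nhds, (ps_congr hC).eq_of_nhds,
    (pu_congr ha).eq_of_nhds, (pu_congr hb).eq_of_nhds, (pu_congr hc).eq_of_nhds,
    (ps_congr ha).eq_of_nhds, (ps_congr hb).eq_of_nhds, (ps_congr hc).eq_of_nhds,
    hA.eq_of_nhds, hB.eq_of_nhds, ha.eq_of_nhds, hb.eq_of_nhds]
  exact h

theorem orth_zero (A B C : ℝ × ℝ → ℝ) (p : ℝ × ℝ) :
    Orth A B C (fun _ => 0) (fun _ => 0) (fun _ => 0) p := by
  simp [Orth, pu_const, ps_const]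

theorem pu_fst {φ : ℝ → ℝ} (hφ : ContDiff ℝ ∞ φ) :
    pu (fun p => φ p.1) = fun p => deriv φ p.1 := by
  funext p
  have := sm1_diff hφ
  exact pu_eq (by fun_prop) (this p.1).hasDerivAt

theorem ps_fst {φ : ℝ → ℝ} (hφ : ContDiff ℝ ∞ φ) :
    ps (fun p => φ p.1) = fun _ => 0 := by
  funext p
  have := sm1_diff hφ
  exact ps_eq (by fun_prop) (hasDerivAt_const p.2 (φ p.1))

theorem orth_band {r1 r2 r3 N1 N2 N3 M1 M2 M3 : ℝ → ℝ} {θ G : ℝ × ℝ → ℝ} {e W' : ℝ} (he : e ≠ 0)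
    (hr1 : ContDiff ℝ ∞ r1) (hr2 : ContDiff ℝ ∞ r2) (hr3 : ContDiff ℝ ∞ r3)
    (hN1 : ContDiff ℝ ∞ N1) (hN2 : ContDiff ℝ ∞ N2) (hN3 : ContDiff ℝ ∞ N3)
    (hM1 : ContDiff ℝ ∞ M1) (hM2 : ContDiff ℝ ∞ M2) (hM3 : ContDiff ℝ ∞ M3)
    (hθ : ContDiff ℝ ∞ θ) (hG : ContDiff ℝ ∞ G) (p : ℝ × ℝ)
    (h1 : e * (deriv r1 p.1 - r2 p.1) =
      N2 p.1 * deriv N3 p.1 - N3 p.1 * (deriv N2 p.1 + N1 p.1))
    (h2 : e * (deriv r2 p.1 + r1 p.1) =
      N3 p.1 * (deriv N1 p.1 - N2 p.1) - N1 p.1 * deriv N3 p.1)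
    (h3 : e * deriv r3 p.1 =
      N1 p.1 * (deriv N2 p.1 + N1 p.1) - N2 p.1 * (deriv N1 p.1 - N2 p.1))
    (h4 : e * (deriv M1 p.1 - M2 p.1) = -2 * W' * N1 p.1)
    (h5 : e * (deriv M2 p.1 + M1 p.1) = -2 * W' * N2 p.1)
    (h6 : e * deriv M3 p.1 = -2 * W' * N3 p.1)
    (h7 : pu G p = Real.sin p.2 ^ 2 * W' * θ p - 2 * Real.sin p.2 * W' * G p)
    (h8 : ps G p = Real.cos p.2 * θ p) :
    Orth (fun q => r1 q.1 + Real.sin q.2 * (M2 q.1 * N3 q.1 - M3 q.1 * N2 q.1))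
      (fun q => r2 q.1 + Real.sin q.2 * (M3 q.1 * N1 q.1 - M1 q.1 * N3 q.1))
      (fun q => r3 q.1 + Real.sin q.2 * (M1 q.1 * N2 q.1 - M2 q.1 * N1 q.1))
      (fun q => θ q * (N1 q.1 + e * Real.sin q.2 * M1 q.1) - 2 * e * G q * M1 q.1)
      (fun q => θ q * (N2 q.1 + e * Real.sin q.2 * M2 q.1) - 2 * e * G q * M2 q.1)
      (fun q => θ q * (N3 q.1 + e * Real.sin q.2 * M3 q.1) - 2 * e * G q * M3 q.1) p := by
  unfold Orth
  simp (disch := fun_prop) only [pu_add, ps_add, pu_sub, ps_sub, pu_mul, ps_mul, pu_const, ps_const,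
    pu_sin, ps_sin, pu_fst hr1, pu_fst hr2, pu_fst hr3, pu_fst hN1, pu_fst hN2, pu_fst hN3,
    pu_fst hM1, pu_fst hM2, pu_fst hM3, ps_fst hr1, ps_fst hr2, ps_fst hr3, ps_fst hN1, ps_fst hN2,
    ps_fst hN3, ps_fst hM1, ps_fst hM2, ps_fst hM3, h7, h8]
  have e1 : deriv r1 p.1 = r2 p.1 +
      (N2 p.1 * deriv N3 p.1 - N3 p.1 * (deriv N2 p.1 + N1 p.1)) / e := by
    field_simp; linear_combination h1
  have e2 : deriv r2 p.1 = -r1 p.1 +
      (N3 p.1 * (deriv N1 p.1 - N2 p.1) - N1 p.1 * deriv N3 p.1) / e := by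
    field_simp; linear_combination h2
  have e3 : deriv r3 p.1 =
      (N1 p.1 * (deriv N2 p.1 + N1 p.1) - N2 p.1 * (deriv N1 p.1 - N2 p.1)) / e := by
    field_simp; linear_combination h3
  have e4 : deriv M1 p.1 = M2 p.1 + (-2 * W' * N1 p.1) / e := by
    field_simp; linear_combination h4
  have e5 : deriv M2 p.1 = -M1 p.1 + (-2 * W' * N2 p.1) / e := by
    field_simp; linear_combination h5
  have e6 : deriv M3 p.1 = (-2 * W' * N3 p.1) / e := by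
    field_simp; linear_combination h6
  rw [e1, e2, e3, e4, e5, e6]
  refine ⟨?_, ?_, ?_⟩
  · field_simp; ring
  · ring
  · field_simp; ring

theorem pu_GG (e : ℝ) (q : ℝ × ℝ) : pu (GG e) q =
    Real.sin q.2 ^ 2 * (-e ^ 3 * i1 e * Real.cos q.1) * th e q -
      2 * Real.sin q.2 * (-e ^ 3 * i1 e * Real.cos q.1) * GG e q := by
  refine pu_eq (sm_diff (contDiff_fam fam_GG e) q) ?_
  have h0 := (one_bounds e q).1.ne'
  have h1 : HasDerivAt (fun u => one e (u, q.2))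
      (-(Real.sin q.2 * (-e ^ 3 * i1 e * Real.cos q.1))) q.1 :=
    (((Real.hasDerivAt_sin q.1).const_mul (-e ^ 3 * i1 e)).const_mul (Real.sin q.2)).const_sub 1
  have h2 : HasDerivAt (fun u => tt e (u, q.2)) _ q.1 := (h1.inv h0).const_mul (Real.sin q.2)
  have h3 := ((hasDerivAt_gg (tt e q)).comp q.1 h2).mul (h1.mul h1)
  refine h3.congr_deriv ?_
  have h4 : Real.sin q.2 * WW e q.1 = 1 - one e q := by unfold one; ring
  simp only [Function.comp_apply, Pi.mul_apply, Prod.mk.eta, th, GG]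
  field_simp
  linear_combination (-2 * Real.sin q.2 * e ^ 3 * i1 e * Real.cos q.1 * gg (tt e q) * one e q) * h4

theorem ps_GG (e : ℝ) (q : ℝ × ℝ) : ps (GG e) q = Real.cos q.2 * th e q := by
  refine ps_eq (sm_diff (contDiff_fam fam_GG e) q) ?_
  have h0 := (one_bounds e q).1.ne'
  have h1 : HasDerivAt (fun s => one e (q.1, s)) (-(Real.cos q.2 * WW e q.1)) q.2 :=
    ((Real.hasDerivAt_sin q.2).mul_const (WW e q.1)).const_sub 1
  have h2 : HasDerivAt (fun s => tt e (q.1, s)) _ q.2 := (Real.hasDerivAt_sin q.2).mul (h1.inv h0)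
  have h3 := ((hasDerivAt_gg (tt e q)).comp q.2 h2).mul (h1.mul h1)
  refine h3.congr_deriv ?_
  have h4 : Real.sin q.2 * WW e q.1 = 1 - one e q := by unfold one; ring
  simp only [Function.comp_apply, Pi.mul_apply, io, Prod.mk.eta, th]
  field_simp
  linear_combination (Real.cos q.2 * gg' (tt e q)) * h4

theorem deriv_scale {φ : ℝ → ℝ} {d k u : ℝ} (h : HasDerivAt φ d (k * u)) :
    deriv (fun u => φ (k * u)) u = k * d := by
  have h2 : HasDerivAt (fun u : ℝ => k * u) k u := by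
    simpa using (hasDerivAt_id u).const_mul k
  rw [mul_comm k d]
  exact (HasDerivAt.comp u (h₂ := φ) h h2).deriv

theorem hd_n1 (e x : ℝ) : HasDerivAt (n1 e) (-e ^ 2 * Real.sin x) x :=
  (((Real.hasDerivAt_cos x).const_mul (e ^ 2)).const_add 1).congr_deriv (by ring)

theorem hd_n2 (e x : ℝ) : HasDerivAt (n2 e) (-e ^ 2 * Real.cos x) x :=
  (Real.hasDerivAt_sin x).const_mul (-e ^ 2)

theorem hd_n3 (e x : ℝ) : HasDerivAt (n3 e) (-e ^ 3 * Real.cos x) x :=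
  (Real.hasDerivAt_sin x).const_mul (-e ^ 3)

theorem hd_ss (x : ℝ) :
    HasDerivAt (fun x => Real.sin x * Real.sin x) (2 * Real.sin x * Real.cos x) x :=
  ((Real.hasDerivAt_sin x).mul (Real.hasDerivAt_sin x)).congr_deriv (by ring)

theorem hd_sc (x : ℝ) :
    HasDerivAt (fun x => Real.sin x * Real.cos x) (1 - 2 * Real.sin x ^ 2) x :=
  ((Real.hasDerivAt_sin x).mul (Real.hasDerivAt_cos x)).congr_deriv
    (by linear_combination Real.sin_sq_add_cos_sq x)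

theorem hd_m1 (e x : ℝ) : HasDerivAt (m1 e) (e ^ 2 * ((2 + 2 * e ^ 4) * i2 e * Real.cos x +
    2 * e ^ 2 * i3 e * (1 - 2 * Real.sin x ^ 2))) x :=
  (((Real.hasDerivAt_sin x).const_mul _).add ((hd_sc x).const_mul _)).const_mul (e ^ 2)

theorem hd_m2 (e x : ℝ) : HasDerivAt (m2 e) (e ^ 4 * (2 * e ^ 2 * i2 e * (-Real.sin x) +
    i3 e * (-(2 * (2 * Real.sin x * Real.cos x))))) x :=
  ((((Real.hasDerivAt_cos x).const_mul _).add
    ((((hd_ss x).const_mul 2).const_sub 1).const_mul _)).const_mul (e ^ 4)).const_add (-1)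

theorem hd_m3 (e x : ℝ) :
    HasDerivAt (m3 e) (-(e ^ 5 * i1 e * (2 * Real.sin x * Real.cos x))) x :=
  ((hd_ss x).const_mul _).const_sub (-e)

theorem hd_aa0 (e x : ℝ) : HasDerivAt (aa0 e) (-2 * (1 + e ^ 4) * i2 e * (-Real.sin x) -
    e ^ 2 / 2 * i3 e * (-(2 * (2 * Real.sin x * Real.cos x)))) x :=
  ((Real.hasDerivAt_cos x).const_mul _).sub ((((hd_ss x).const_mul 2).const_sub 1).const_mul _)

theorem hd_ww0 (e x : ℝ) : HasDerivAt (ww0 e)
    (e * (2 * i1 e + 2 * e ^ 4 * i2 e) * Real.cos x + e ^ 3 * i3 e * (1 - 2 * Real.sin x ^ 2)) x :=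
  ((Real.hasDerivAt_sin x).const_mul _).add ((hd_sc x).const_mul _)

theorem hd_cc0 (e x : ℝ) : HasDerivAt (cc0 e) (-(1 - e ^ 4) * i1 e * Real.cos x) x :=
  (Real.hasDerivAt_sin x).const_mul _

theorem orth_exact {e k : ℝ} (he : e ≠ 0) (hk : k * e ^ 4 = 1 + e ^ 4) (p : ℝ × ℝ) :
    Orth (fun q => (1 + e ^ 4 / 2) + e ^ 6 * (aa0 e (k * q.1) + Real.sin q.2 * aa1 e (k * q.1)))
      (fun q => -e * Real.sin q.2 + e ^ 5 * (ww0 e (k * q.1) + Real.sin q.2 * ww1 e (k * q.1)) -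
        e ^ 2 * (cc0 e (k * q.1) + Real.sin q.2 * cc1 e (k * q.1)))
      (fun q => Real.sin q.2 + e * (cc0 e (k * q.1) + Real.sin q.2 * cc1 e (k * q.1)))
      (sc k (z1 e)) (sc k (z2 e)) (sc k (z3 e)) p := by
  obtain rfl : k = (1 + e ^ 4) / e ^ 4 := by field_simp; exact hk
  set k := (1 + e ^ 4) / e ^ 4 with hk'
  have hsc := Real.sin_sq_add_cos_sq (k * p.1)
  have d1 : (1 : ℝ) + e ^ 4 ≠ 0 := by positivity
  have d2 : (1 : ℝ) + 2 * e ^ 4 ≠ 0 := by positivity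
  have d3 : (2 : ℝ) + e ^ 4 ≠ 0 := by positivity
  have h := orth_band (e := e) (W' := k * (-e ^ 3 * i1 e * Real.cos (k * p.1)))
    (r1 := fun u => (1 + e ^ 4 / 2) + e ^ 6 * aa0 e (k * u))
    (r2 := fun u => e ^ 5 * ww0 e (k * u) - e ^ 2 * cc0 e (k * u))
    (r3 := fun u => e * cc0 e (k * u))
    (N1 := fun u => n1 e (k * u)) (N2 := fun u => n2 e (k * u)) (N3 := fun u => n3 e (k * u))
    (M1 := fun u => m1 e (k * u)) (M2 := fun u => m2 e (k * u)) (M3 := fun u => m3 e (k * u))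
    (θ := sc k (th e)) (G := sc k (GG e)) he
    (by unfold aa0; fun_prop) (by unfold ww0 cc0; fun_prop) (by unfold cc0; fun_prop)
    (by unfold n1; fun_prop) (by unfold n2; fun_prop) (by unfold n3; fun_prop)
    (by unfold m1 mm; fun_prop) (by unfold m2 qq; fun_prop) (by unfold m3; fun_prop)
    (contDiff_sc k (contDiff_fam fam_th e)) (contDiff_sc k (contDiff_fam fam_GG e)) p
    ?_ ?_ ?_ ?_ ?_ ?_ ?_ ?_
  · convert h using 2 with q q q
    · simp only [aa1, m2, n3, m3, n2]; ring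
    · simp only [ww1, cc1, m1, m3, n1, n3]; ring
    · simp only [cc1, m1, m2, n1, n2]; ring
    · rfl
    · rfl
    · rfl
  · rw [deriv_scale (φ := fun x => (1 + e ^ 4 / 2) + e ^ 6 * aa0 e x)
      (((hd_aa0 e _).const_mul _).const_add _), deriv_scale (hd_n3 e _), deriv_scale (hd_n2 e _)]
    simp only [ww0, cc0, n1, n2, n3, i1, i2, i3]
    generalize Real.sin (k * p.1) = S at *
    generalize Real.cos (k * p.1) = C at *
    rw [hk']
    field_simp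
    ring
  · rw [deriv_scale (φ := fun x => e ^ 5 * ww0 e x - e ^ 2 * cc0 e x)
      (((hd_ww0 e _).const_mul _).sub ((hd_cc0 e _).const_mul _)), deriv_scale (hd_n3 e _),
      deriv_scale (hd_n1 e _)]
    simp only [aa0, n1, n2, n3, i1, i2, i3]
    generalize Real.sin (k * p.1) = S at *
    generalize Real.cos (k * p.1) = C at *
    have h9 : e * (k * (e ^ 5 * (e * (2 * (1 + e ^ 4)⁻¹ + 2 * e ^ 4 * (1 + 2 * e ^ 4)⁻¹) * C +
        e ^ 3 * (2 + e ^ 4)⁻¹ * (1 - 2 * S ^ 2)) - e ^ 2 * (-(1 - e ^ 4) * (1 + e ^ 4)⁻¹ * C)) +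
        (1 + e ^ 4 / 2 + e ^ 6 * (-2 * (1 + e ^ 4) * (1 + 2 * e ^ 4)⁻¹ * C -
          e ^ 2 / 2 * (2 + e ^ 4)⁻¹ * (1 - 2 * (S * S))))) =
        e + e ^ 3 * k * C + e ^ 5 * (1 - S ^ 2) := by
      rw [hk']
      field_simp
      ring
    rw [h9]
    linear_combination (-e ^ 5 * k) * hsc + (-e) * hk
  · rw [deriv_scale (φ := fun x => e * cc0 e x) ((hd_cc0 e _).const_mul _), deriv_scale (hd_n2 e _),
      deriv_scale (hd_n1 e _)]
    simp only [n1, n2, i1]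
    generalize Real.sin (k * p.1) = S at *
    generalize Real.cos (k * p.1) = C at *
    have h9 : e * (k * (e * (-(1 - e ^ 4) * (1 + e ^ 4)⁻¹ * C))) = e ^ 2 * (2 - k) * C := by
      rw [hk']
      field_simp
      ring
    rw [h9]
    linear_combination (e ^ 4 * (k - 1)) * hsc + hk
  · rw [deriv_scale (hd_m1 e _)]
    simp only [m2, qq, n1, i1, i2, i3]
    generalize Real.sin (k * p.1) = S at *
    generalize Real.cos (k * p.1) = C at *
    have h9 : e * (k * (e ^ 2 * ((2 + 2 * e ^ 4) * (1 + 2 * e ^ 4)⁻¹ * C +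
        2 * e ^ 2 * (2 + e ^ 4)⁻¹ * (1 - 2 * S ^ 2))) -
        (-1 + e ^ 4 * (2 * e ^ 2 * (1 + 2 * e ^ 4)⁻¹ * C + (2 + e ^ 4)⁻¹ * (1 - 2 * (S * S))))) =
        2 * C / e + 2 * e * (1 - S ^ 2) := by
      rw [hk']
      field_simp
      ring
    have h10 : -2 * (k * (-e ^ 3 * (1 + e ^ 4)⁻¹ * C)) * (1 + e ^ 2 * C) =
        2 * C / e + 2 * e * C ^ 2 := by
      rw [hk']
      field_simp
    rw [h9, h10]
    linear_combination (-2 * e) * hsc
  · rw [deriv_scale (hd_m2 e _)]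
    simp only [m1, mm, n2, i1, i2, i3]
    generalize Real.sin (k * p.1) = S at *
    generalize Real.cos (k * p.1) = C at *
    rw [hk']
    field_simp
    ring
  · rw [deriv_scale (hd_m3 e _)]
    simp only [n3, i1]
    generalize Real.sin (k * p.1) = S at *
    generalize Real.cos (k * p.1) = C at *
    rw [hk']
    field_simp
  · rw [pu_sc k (contDiff_fam fam_GG e)]
    simp only [sc, pu_GG]
    ring
  · rw [ps_sc k (contDiff_fam fam_GG e)]
    simp only [sc, ps_GG]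

end Pool.Agent.P.MP_956cc7_gt
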