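import Pool.Agent.P.MP_956cc7_gt.Iso

set_option autoImplicit false
open scoped ContDiff Topology
open Filter Set

namespace Pool.Agent.P.MP_956cc7_gt

noncomputable def vec (X Y Z : ℝ × ℝ → ℝ) : ℝ × ℝ → E3 := fun p => !₂[X p, Y p, Z p]

theorem contDiff_vec {X Y Z : ℝ × ℝ → ℝ} (hX : ContDiff ℝ ∞ X) (hY : ContDiff ℝ ∞ Y)
    (hZ : ContDiff ℝ ∞ Z) : ContDiff ℝ ∞ (vec X Y Z) := by
  rw [contDiff_euclidean]
  intro i
  fin_cases i
  · exact hX
  · exact hY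
  · exact hZ

theorem fderiv_vec {X Y Z : ℝ × ℝ → ℝ} (hX : ContDiff ℝ ∞ X) (hY : ContDiff ℝ ∞ Y)
    (hZ : ContDiff ℝ ∞ Z) (p v : ℝ × ℝ) :
    fderiv ℝ (vec X Y Z) p v = !₂[v.1 * pu X p + v.2 * ps X p, v.1 * pu Y p + v.2 * ps Y p,
      v.1 * pu Z p + v.2 * ps Z p] := by
  have hd := ((contDiff_vec hX hY hZ).differentiable (by simp) p).hasFDerivAt
  have h : ∀ i : Fin 3, (fderiv ℝ (vec X Y Z) p v) i = fderiv ℝ (fun x => vec X Y Z x i) p v := by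
    intro i
    have h1 := ((EuclideanSpace.proj i : E3 →L[ℝ] ℝ).hasFDerivAt.comp p hd).fderiv
    exact (congrArg (fun L => L v) h1).symm
  ext i
  rw [h i, fderiv_eq_pu_ps]
  fin_cases i <;> rfl

theorem norm_sq_vec (x y z : ℝ) : ‖(!₂[x, y, z] : E3)‖ ^ 2 = x * x + y * y + z * z := by
  rw [EuclideanSpace.real_norm_sq_eq, Fin.sum_univ_three]
  simp [sq]

theorem injective_fderiv_vec {X Y Z : ℝ × ℝ → ℝ} (hX : ContDiff ℝ ∞ X) (hY : ContDiff ℝ ∞ Y)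
    (hZ : ContDiff ℝ ∞ Z) {p : ℝ × ℝ} (h : EG X Y Z p ≠ 0) :
    Function.Injective (fderiv ℝ (vec X Y Z) p) := by
  rw [injective_iff_map_eq_zero]
  intro v hv
  rw [fderiv_vec hX hY hZ] at hv
  have v1 : v.1 * pu X p + v.2 * ps X p = 0 := congrArg (fun w : E3 => w 0) hv
  have v2 : v.1 * pu Y p + v.2 * ps Y p = 0 := congrArg (fun w : E3 => w 1) hv
  have v3 : v.1 * pu Z p + v.2 * ps Z p = 0 := congrArg (fun w : E3 => w 2) hv
  have ha : v.1 * EG X Y Z p = 0 := by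
    unfold EG
    linear_combination (pu Y p * ps Z p - pu Z p * ps Y p) * (ps Z p * v2 - ps Y p * v3) +
      (pu Z p * ps X p - pu X p * ps Z p) * (ps X p * v3 - ps Z p * v1) +
      (pu X p * ps Y p - pu Y p * ps X p) * (ps Y p * v1 - ps X p * v2)
  have hb : v.2 * EG X Y Z p = 0 := by
    unfold EG
    linear_combination (pu Y p * ps Z p - pu Z p * ps Y p) * (pu Y p * v3 - pu Z p * v2) +
      (pu Z p * ps X p - pu X p * ps Z p) * (pu Z p * v1 - pu X p * v3) +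
      (pu X p * ps Y p - pu Y p * ps X p) * (pu X p * v2 - pu Y p * v1)
  exact Prod.ext ((mul_eq_zero.1 ha).resolve_right h) ((mul_eq_zero.1 hb).resolve_right h)

theorem iso_of_orth {A B C a b c : ℝ × ℝ → ℝ} (hA : ContDiff ℝ ∞ A) (hB : ContDiff ℝ ∞ B)
    (hC : ContDiff ℝ ∞ C) (ha : ContDiff ℝ ∞ a) (hb : ContDiff ℝ ∞ b) (hc : ContDiff ℝ ∞ c)
    (t t' : ℝ) (ht : t' = -t) {p : ℝ × ℝ} (h : Orth A B C a b c p) (v : ℝ × ℝ) :
    ‖fderiv ℝ (vec (rX (fun q => A q + t * a q) (fun q => B q + t * b q))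
      (rY (fun q => A q + t * a q) (fun q => B q + t * b q)) (fun q => C q + t * c q)) p v‖ =
    ‖fderiv ℝ (vec (rX (fun q => A q + t' * a q) (fun q => B q + t' * b q))
      (rY (fun q => A q + t' * a q) (fun q => B q + t' * b q)) (fun q => C q + t' * c q)) p v‖ := by
  rw [← sq_eq_sq₀ (norm_nonneg _) (norm_nonneg _),
    fderiv_vec (by fun_prop) (by fun_prop) (by fun_prop),
    fderiv_vec (by fun_prop) (by fun_prop) (by fun_prop), norm_sq_vec, norm_sq_vec]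
  simp (disch := fun_prop) only [pu_rX, pu_rY, ps_rX, ps_rY, pu_add, ps_add, pu_cmul, ps_cmul]
  simp only [rX, rY]
  obtain ⟨h1, h2, h3⟩ := h
  subst ht
  have hsc := Real.sin_sq_add_cos_sq p.1
  linear_combination (4 * t * v.1 ^ 2) * h1 + (4 * t * v.2 ^ 2) * h2 + (4 * t * v.1 * v.2) * h3 +
    (4 * t * ((v.1 * (pu A p - B p) + v.2 * ps A p) * (v.1 * (pu a p - b p) + v.2 * ps a p) +
      (v.1 * (pu B p + A p) + v.2 * ps B p) * (v.1 * (pu b p + a p) + v.2 * ps b p))) * hsc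

theorem ev_lt_cos {p : ℝ × ℝ} {c : ℝ} (h : c < Real.cos p.2) :
    ∀ᶠ q in 𝓝 p, c < Real.cos q.2 := by
  have hc : Continuous fun q : ℝ × ℝ => Real.cos q.2 := by fun_prop
  exact hc.continuousAt.eventually (lt_mem_nhds h)

theorem ev_cos_lt {p : ℝ × ℝ} {c : ℝ} (h : Real.cos p.2 < c) :
    ∀ᶠ q in 𝓝 p, Real.cos q.2 < c := by
  have hc : Continuous fun q : ℝ × ℝ => Real.cos q.2 := by fun_prop
  exact hc.continuousAt.eventually (gt_mem_nhds h)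

theorem al_flat (e : ℝ) {s : ℝ} (h : 1 / 2 ≤ Real.cos s) : al e s = 1 + e ^ 4 / 2 := by
  unfold al
  rw [expNegInvGlue.zero_of_nonpos (by linarith), add_zero]

theorem Z_eq_zero (e : ℝ) {q : ℝ × ℝ} (h : Real.cos q.2 < 4 / 5) :
    Z1 e q = 0 ∧ Z2 e q = 0 ∧ Z3 e q = 0 := by
  unfold Z1 Z2 Z3
  rcases le_or_gt (Real.cos q.2) (3 / 5) with h1 | h1
  · simp [chi_eq_zero h1]
  · have h2 : 1 / 4 < Real.sin q.2 ^ 2 := by nlinarith [Real.sin_sq_add_cos_sq q.2]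
    obtain ⟨a1, a2, a3⟩ := z_eq_zero e h2
    simp [a1, a2, a3]

theorem orth_all {e k : ℝ} (he : e ≠ 0) (hk : k * e ^ 4 = 1 + e ^ 4) (p : ℝ × ℝ) :
    Orth (sc k (AA 0 e)) (sc k (BB 0 e)) (sc k (CC 0 e))
      (sc k (Z1 e)) (sc k (Z2 e)) (sc k (Z3 e)) p := by
  rcases lt_or_ge (Real.cos p.2) (4 / 5) with h | h
  · refine (orth_zero _ _ _ p).congr EventuallyEq.rfl EventuallyEq.rfl EventuallyEq.rfl ?_ ?_ ?_ <;>
      filter_upwards [ev_cos_lt h] with q hq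
    · exact (Z_eq_zero e (q := (k * q.1, q.2)) hq).1
    · exact (Z_eq_zero e (q := (k * q.1, q.2)) hq).2.1
    · exact (Z_eq_zero e (q := (k * q.1, q.2)) hq).2.2
  · have h' : 7 / 10 < Real.cos p.2 := by linarith
    refine (orth_exact he hk p).congr ?_ ?_ ?_ ?_ ?_ ?_ <;>
      filter_upwards [ev_lt_cos h'] with q hq
    · simp only [sc, AA, aF, chi_eq_one hq.le, al_flat e (s := q.2) (by linarith)]; ring
    · simp only [sc, BB, wF, cF, chi_eq_one hq.le, tw_eq_sin (s := q.2) (by linarith)]; ring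
    · simp only [sc, CC, cF, chi_eq_one hq.le]; ring
    · simp only [sc, Z1, chi_eq_one hq.le, one_mul]
    · simp only [sc, Z2, chi_eq_one hq.le, one_mul]
    · simp only [sc, Z3, chi_eq_one hq.le, one_mul]

noncomputable def FX (τ e k : ℝ) : ℝ × ℝ → ℝ := rX (sc k (AA τ e)) (sc k (BB τ e))
noncomputable def FY (τ e k : ℝ) : ℝ × ℝ → ℝ := rY (sc k (AA τ e)) (sc k (BB τ e))
noncomputable def FZ (τ e k : ℝ) : ℝ × ℝ → ℝ := sc k (CC τ e)

/-- the two surfaces -/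
noncomputable def FF (τ e k : ℝ) : ℝ × ℝ → E3 := vec (FX τ e k) (FY τ e k) (FZ τ e k)

theorem contDiff_FX (τ e k : ℝ) : ContDiff ℝ ∞ (FX τ e k) :=
  contDiff_rX (contDiff_sc k (contDiff_fam (fam_AA τ) e)) (contDiff_sc k (contDiff_fam (fam_BB τ) e))
theorem contDiff_FY (τ e k : ℝ) : ContDiff ℝ ∞ (FY τ e k) :=
  contDiff_rY (contDiff_sc k (contDiff_fam (fam_AA τ) e)) (contDiff_sc k (contDiff_fam (fam_BB τ) e))
theorem contDiff_FZ (τ e k : ℝ) : ContDiff ℝ ∞ (FZ τ e k) :=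
  contDiff_sc k (contDiff_fam (fam_CC τ) e)
theorem contDiff_FF (τ e k : ℝ) : ContDiff ℝ ∞ (FF τ e k) :=
  contDiff_vec (contDiff_FX τ e k) (contDiff_FY τ e k) (contDiff_FZ τ e k)

theorem dper_FF (τ e : ℝ) (k : ℤ) : DPer (FF τ e k) := by
  intro p m n
  simp only [FF, vec, FX, FY, FZ, rX, rY, (per_AA τ e).sc k p m n, (per_BB τ e).sc k p m n,
    (per_CC τ e).sc k p m n, Real.cos_add_int_mul_two_pi, Real.sin_add_int_mul_two_pi]

theorem iso_FF {e k : ℝ} (he : e ≠ 0) (hk : k * e ^ 4 = 1 + e ^ 4) (p v : ℝ × ℝ) :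
    ‖fderiv ℝ (FF 1 e k) p v‖ = ‖fderiv ℝ (FF (-1) e k) p v‖ := by
  have hA : ∀ τ, sc k (AA τ e) = fun q => sc k (AA 0 e) q + τ * e ^ 6 * sc k (Z1 e) q :=
    fun τ => funext fun q => AA_eq τ e _
  have hB : ∀ τ, sc k (BB τ e) = fun q => sc k (BB 0 e) q + τ * e ^ 6 * sc k (Z2 e) q :=
    fun τ => funext fun q => BB_eq τ e _
  have hC : ∀ τ, sc k (CC τ e) = fun q => sc k (CC 0 e) q + τ * e ^ 6 * sc k (Z3 e) q :=
    fun τ => funext fun q => CC_eq τ e _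
  unfold FF FX FY FZ
  rw [hA 1, hB 1, hC 1, hA (-1), hB (-1), hC (-1)]
  exact iso_of_orth (contDiff_sc k (contDiff_fam (fam_AA 0) e))
    (contDiff_sc k (contDiff_fam (fam_BB 0) e)) (contDiff_sc k (contDiff_fam (fam_CC 0) e))
    (contDiff_sc k (contDiff_fam fam_Z1 e)) (contDiff_sc k (contDiff_fam fam_Z2 e))
    (contDiff_sc k (contDiff_fam fam_Z3 e)) _ _ (by ring) (orth_all he hk p) v

theorem ABC_rev (τ e : ℝ) {q : ℝ × ℝ} (h : Real.cos q.2 ≤ 3 / 5) :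
    AA τ e q = al e q.2 ∧ BB τ e q = -e * tw q.2 ∧ CC τ e q = Real.sin q.2 := by
  simp [AA, BB, CC, aF, wF, cF, chi_eq_zero h]

theorem F_rev (τ e k : ℝ) {p : ℝ × ℝ} (h : Real.cos p.2 < 3 / 5) :
    FX τ e k =ᶠ[𝓝 p] rX (fun p => al e p.2) (fun p => -e * tw p.2) ∧
    FY τ e k =ᶠ[𝓝 p] rY (fun p => al e p.2) (fun p => -e * tw p.2) ∧
    FZ τ e k =ᶠ[𝓝 p] fun p => Real.sin p.2 := by
  refine ⟨?_, ?_, ?_⟩ <;> filter_upwards [ev_cos_lt h] with q hq <;>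
    obtain ⟨a1, a2, a3⟩ := ABC_rev τ e (q := (k * q.1, q.2)) hq.le <;>
    simp only [FX, FY, FZ, rX, rY, sc, a1, a2, a3]

theorem F_model (τ e k : ℝ) {p : ℝ × ℝ} (h : 1 / 2 < Real.cos p.2) :
    FX τ e k =ᶠ[𝓝 p] rX (mA e k (aF τ e)) (mB e k (wF τ e) (cF τ e)) ∧
    FY τ e k =ᶠ[𝓝 p] rY (mA e k (aF τ e)) (mB e k (wF τ e) (cF τ e)) ∧
    FZ τ e k =ᶠ[𝓝 p] mC e k (cF τ e) := by
  refine ⟨?_, ?_, ?_⟩ <;> filter_upwards [ev_lt_cos h] with q hq
  · simp only [FX, rX, sc, AA, BB, mA, mB, mC, al_flat e hq.le,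
      tw_eq_sin (s := q.2) (by linarith)]
    ring
  · simp only [FY, rY, sc, AA, BB, mA, mB, mC, al_flat e hq.le,
      tw_eq_sin (s := q.2) (by linarith)]
    ring
  · rfl

/-- curvature and immersion conditions -/
def Good (τ e : ℝ) : Prop := ∀ k : ℝ, k * e ^ 4 = 1 + e ^ 4 → ∀ p : ℝ × ℝ,
  p.2 ∈ Icc (-Real.pi) Real.pi → EG (FX τ e k) (FY τ e k) (FZ τ e k) p ≠ 0 ∧
    (0 < Real.cos p.2 → KK (FX τ e k) (FY τ e k) (FZ τ e k) p ≤ 0)

theorem eventually_good (τ : ℝ) : ∀ᶠ e in 𝓝 (0 : ℝ), e ≠ 0 → Good τ e := by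
  filter_upwards [eventually_TT, eventually_phiF_neg (fam_aF τ) (fam_wF τ) (fam_cF τ)
    (fun e => (per_aF τ e).per) (fun e => (per_wF τ e).per) (fun e => (per_cF τ e).per)]
    with e h1 h2 he k hk p hp
  rcases lt_or_ge (Real.cos p.2) (3 / 5) with h | h
  · obtain ⟨a1, a2, a3⟩ := F_rev τ e k h
    rw [EG_congr a1 a2 a3, KK_congr a1 a2 a3]
    exact ⟨EG_rev_ne e p, fun hc => KK_rev_nonpos hc (h1 p.2 hp hc)⟩
  · have h' : 1 / 2 < Real.cos p.2 := by linarith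
    obtain ⟨a1, a2, a3⟩ := F_model τ e k h'
    have h3 : KK (FX τ e k) (FY τ e k) (FZ τ e k) p < 0 := by
      rw [KK_congr a1 a2 a3, KK_model he hk (contDiff_fam (fam_aF τ) e) (contDiff_fam (fam_wF τ) e)
        (contDiff_fam (fam_cF τ) e)]
      exact mul_neg_of_pos_of_neg (by positivity) (h2 _ _ ⟨hp, h'.le⟩)
    exact ⟨EG_ne_of_KK_neg h3, fun _ => h3.le⟩

noncomputable def nsq (τ e : ℝ) (q : ℝ × ℝ) : ℝ :=
  AA τ e q * AA τ e q + BB τ e q * BB τ e q + CC τ e q * CC τ e q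

noncomputable def rz (e : ℝ) (q : ℝ × ℝ) : ℝ :=
  AA 0 e q * Z1 e q + BB 0 e q * Z2 e q + CC 0 e q * Z3 e q

theorem norm_sq_FF (τ e k : ℝ) (p : ℝ × ℝ) : ‖FF τ e k p‖ ^ 2 = nsq τ e (k * p.1, p.2) := by
  simp only [FF, vec, norm_sq_vec, FX, FY, FZ, rX, rY, sc, nsq]
  linear_combination (AA τ e (k * p.1, p.2) ^ 2 + BB τ e (k * p.1, p.2) ^ 2) *
    Real.sin_sq_add_cos_sq p.1

theorem nsq_sub (e : ℝ) (q : ℝ × ℝ) : nsq 1 e q - nsq (-1) e q = 4 * e ^ 6 * rz e q := by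
  unfold nsq rz
  rw [AA_eq 1, BB_eq 1, CC_eq 1, AA_eq (-1), BB_eq (-1), CC_eq (-1)]
  ring

theorem eventually_rz : ∀ᶠ e in 𝓝 (0 : ℝ), ∀ x, ∀ s ∈ Icc (-Real.pi) Real.pi,
    nsq 1 e (x, s) ≤ nsq 1 e (0, 0) → 0 < rz e (x, s) := by
  have h := eventually_pos (Φ := fun e q => max (rz e q) (nsq 1 e q - nsq 1 e (0, 0)))
    (K := Icc (-Real.pi) Real.pi) ?_ ?_ isCompact_Icc ?_
  · filter_upwards [h] with e he x s hs hle
    rcases lt_max_iff.1 (he x s hs) with h1 | h1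
    · exact h1
    · linarith
  · have a0 := (fam_AA 0).continuous
    have b0 := (fam_BB 0).continuous
    have c0 := (fam_CC 0).continuous
    have a1 := (fam_AA 1).continuous
    have b1 := (fam_BB 1).continuous
    have c1 := (fam_CC 1).continuous
    have y1 := fam_Z1.continuous
    have y2 := fam_Z2.continuous
    have y3 := fam_Z3.continuous
    have n0 : Continuous fun q : ℝ × (ℝ × ℝ) => nsq 1 q.1 q.2 := by unfold nsq; fun_prop
    have n1 : Continuous fun q : ℝ × (ℝ × ℝ) => nsq 1 q.1 (0, 0) :=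
      n0.comp (f := fun q : ℝ × (ℝ × ℝ) => (q.1, (0, 0))) (by fun_prop)
    have n2 : Continuous fun q : ℝ × (ℝ × ℝ) => rz q.1 q.2 := by unfold rz; fun_prop
    exact n2.max (n0.sub n1)
  · intro e p
    simp only [rz, nsq, (per_AA 0 e).per p, (per_BB 0 e).per p, (per_CC 0 e).per p,
      (per_AA 1 e).per p, (per_BB 1 e).per p, (per_CC 1 e).per p, (per_Z e).1.per p,
      (per_Z e).2.1.per p, (per_Z e).2.2.per p]
  · intro x s _
    have e1 : ∀ q : ℝ × ℝ, nsq 1 0 q = al 0 q.2 ^ 2 + Real.sin q.2 ^ 2 := by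
      intro q
      simp only [nsq, AA, BB, CC]
      ring
    have e2 : al 0 0 = 1 := by
      rw [al_flat 0 (by rw [Real.cos_zero]; norm_num)]; norm_num
    rw [lt_max_iff, e1, e1]
    simp only [e2, Real.sin_zero]
    by_contra hc
    push Not at hc
    obtain ⟨h1, h2⟩ := hc
    have h3 := one_le_al 0 s
    have h4 : Real.sin s = 0 := by nlinarith [sq_nonneg (Real.sin s)]
    have h5 : al 0 s = 1 := by nlinarith [sq_nonneg (Real.sin s)]
    have h6 : 1 / 2 ≤ Real.cos s := by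
      have : expNegInvGlue (1 / 2 - Real.cos s) = 0 := by
        unfold al at h5; linarith
      have := expNegInvGlue.zero_iff_nonpos.1 this
      linarith
    have h7 : Real.cos s = 1 := by nlinarith [Real.sin_sq_add_cos_sq s]
    have h8 : rz 0 (x, s) = expNegInvGlue 1 := by
      simp [rz, AA, BB, CC, Z1, Z2, Z3, z1, z2, z3, th, tt, WW, n1, n2, n3, h4, h5,
        chi_eq_one (s := s) (by rw [h7]; norm_num), gg'_zero]
    rw [h8] at h1
    exact absurd (expNegInvGlue.pos_of_pos one_pos) (not_lt.2 h1)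

theorem exists_param : ∃ (e : ℝ) (k : ℤ), e ≠ 0 ∧ (k : ℝ) * e ^ 4 = 1 + e ^ 4 ∧ Good 1 e ∧
    Good (-1) e ∧ ∀ x, ∀ s ∈ Icc (-Real.pi) Real.pi,
      nsq 1 e (x, s) ≤ nsq 1 e (0, 0) → 0 < rz e (x, s) := by
  have h := (tendsto_inv_atTop_nhds_zero_nat (𝕜 := ℝ)).eventually
    ((eventually_good 1).and ((eventually_good (-1)).and eventually_rz))
  obtain ⟨j, ⟨h1, h2, h3⟩, hj⟩ := (h.and (eventually_ge_atTop 1)).exists
  have hj0 : (j : ℝ) ≠ 0 := by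
    have : j ≠ 0 := by omega
    exact_mod_cast this
  refine ⟨(j : ℝ)⁻¹, (j : ℤ) ^ 4 + 1, inv_ne_zero hj0, ?_, h1 (inv_ne_zero hj0),
    h2 (inv_ne_zero hj0), h3⟩
  push_cast
  field_simp

theorem lift_mem (x : T2) : (lift x).2 ∈ Icc (-Real.pi) Real.pi :=
  ⟨(Complex.neg_pi_lt_arg _).le, Complex.arg_le_pi _⟩

theorem cos_arg_circle (z : Circle) : Real.cos (Complex.arg z) = (z : ℂ).re := by
  rw [Complex.cos_arg z.coe_ne_zero]; simp

theorem sin_arg_circle (z : Circle) : Real.sin (Complex.arg z) = (z : ℂ).im := by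
  rw [Complex.sin_arg]; simp

theorem desc_outer (τ e k : ℝ) (x : T2) (hx : x ∈ outer) : desc (FF τ e k) x =
    !₂[((1 + e ^ 4 / 2) + expNegInvGlue (1 / 2 - (x.2 : ℂ).re)) * (x.1 : ℂ).re,
      ((1 + e ^ 4 / 2) + expNegInvGlue (1 / 2 - (x.2 : ℂ).re)) * (x.1 : ℂ).im, (x.2 : ℂ).im] := by
  have h0 : (x.2 : ℂ).re ≤ 0 := hx
  have h1 : Real.cos (Complex.arg x.2) ≤ 0 := by rwa [cos_arg_circle]
  obtain ⟨a1, a2, a3⟩ := ABC_rev τ e (q := (k * Complex.arg x.1, Complex.arg x.2))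
    (by simp only; linarith)
  simp only [desc, lift, FF, vec, FX, FY, FZ, rX, rY, sc, a1, a2, a3,
    tw_eq_zero (s := Complex.arg x.2) (by linarith), al, cos_arg_circle, sin_arg_circle]
  congr 3 <;> ring

theorem localMax_mem_outer {τ e : ℝ} {k : ℤ} (hk : (k : ℝ) * e ^ 4 = 1 + e ^ 4) (hg : Good τ e)
    (ℓ : E3 →L[ℝ] ℝ) (t : ℝ) (ht : 0 < t) (y : T2)
    (h : IsLocalMax (fun x => ℓ (desc (FF τ e k) x) + t * ‖desc (FF τ e k) x‖ ^ 2) y) :
    y ∈ outer := by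
  by_contra hy
  have h1 : 0 < Real.cos (lift y).2 := by
    simp only [lift, cos_arg_circle]
    exact not_le.1 hy
  obtain ⟨h2, h3⟩ := hg k hk (lift y) (lift_mem y)
  obtain ⟨l1, l2, l3, hl⟩ := clm_expand ℓ
  refine no_localMax (contDiff_FX τ e k) (contDiff_FY τ e k) (contDiff_FZ τ e k) (h3 h1) h2
    l1 l2 l3 t ht ?_
  rw [← ex_lift y] at h
  have h4 := h.comp_continuous continuous_ex.continuousAt
  convert h4 using 2 with q
  simp only [Function.comp_apply, desc_ex (dper_FF τ e k)]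
  simp only [FF, vec, hl, norm_sq_vec]

end Pool.Agent.P.MP_956cc7_gt
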