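import Pool.Agent.P.MP_956cc7_gt.Calc

set_option autoImplicit false
open scoped ContDiff Topology
open Filter

namespace Pool.Agent.P.MP_956cc7_gt

theorem pu_mul {f g : ℝ × ℝ → ℝ} (hf : ContDiff ℝ ∞ f) (hg : ContDiff ℝ ∞ g) :
    pu (fun p => f p * g p) = fun p => pu f p * g p + f p * pu g p := by
  funext p
  exact pu_eq ((sm_diff hf p).mul (sm_diff hg p))
    ((hasDerivAt_pu (sm_diff hf p)).mul (hasDerivAt_pu (sm_diff hg p)))

theorem ps_mul {f g : ℝ × ℝ → ℝ} (hf : ContDiff ℝ ∞ f) (hg : ContDiff ℝ ∞ g) :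
    ps (fun p => f p * g p) = fun p => ps f p * g p + f p * ps g p := by
  funext p
  exact ps_eq ((sm_diff hf p).mul (sm_diff hg p))
    ((hasDerivAt_ps (sm_diff hf p)).mul (hasDerivAt_ps (sm_diff hg p)))

/-- determinant of three vectors -/
def det3 (a1 a2 a3 b1 b2 b3 c1 c2 c3 : ℝ) : ℝ :=
  a1 * (b2 * c3 - b3 * c2) + a2 * (b3 * c1 - b1 * c3) + a3 * (b1 * c2 - b2 * c1)

noncomputable def LL (X Y Z : ℝ × ℝ → ℝ) (p : ℝ × ℝ) : ℝ :=
  det3 (pu (pu X) p) (pu (pu Y) p) (pu (pu Z) p) (pu X p) (pu Y p) (pu Z p)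
    (ps X p) (ps Y p) (ps Z p)

noncomputable def MM (X Y Z : ℝ × ℝ → ℝ) (p : ℝ × ℝ) : ℝ :=
  det3 (ps (pu X) p) (ps (pu Y) p) (ps (pu Z) p) (pu X p) (pu Y p) (pu Z p)
    (ps X p) (ps Y p) (ps Z p)

noncomputable def NN (X Y Z : ℝ × ℝ → ℝ) (p : ℝ × ℝ) : ℝ :=
  det3 (ps (ps X) p) (ps (ps Y) p) (ps (ps Z) p) (pu X p) (pu Y p) (pu Z p)
    (ps X p) (ps Y p) (ps Z p)

/-- numerator of the Gauss curvature -/
noncomputable def KK (X Y Z : ℝ × ℝ → ℝ) (p : ℝ × ℝ) : ℝ :=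
  LL X Y Z p * NN X Y Z p - MM X Y Z p ^ 2

/-- squared length of the normal vector -/
noncomputable def EG (X Y Z : ℝ × ℝ → ℝ) (p : ℝ × ℝ) : ℝ :=
  (pu Y p * ps Z p - pu Z p * ps Y p) ^ 2 + (pu Z p * ps X p - pu X p * ps Z p) ^ 2 +
    (pu X p * ps Y p - pu Y p * ps X p) ^ 2

theorem sq3_zero {x y z : ℝ} (h : x ^ 2 + y ^ 2 + z ^ 2 ≤ 0) : x = 0 ∧ y = 0 ∧ z = 0 := by
  refine ⟨?_, ?_, ?_⟩ <;> nlinarith [sq_nonneg x, sq_nonneg y, sq_nonneg z]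

theorem EG_ne_of_KK_neg {X Y Z : ℝ × ℝ → ℝ} {p : ℝ × ℝ} (h : KK X Y Z p < 0) :
    EG X Y Z p ≠ 0 := by
  intro h0
  unfold EG at h0
  obtain ⟨h1, h2, h3⟩ := sq3_zero h0.le
  simp only [KK, LL, MM, NN, det3, h1, h2, h3] at h
  simp at h

theorem KK_congr {X Y Z X' Y' Z' : ℝ × ℝ → ℝ} {p : ℝ × ℝ} (hX : X =ᶠ[𝓝 p] X')
    (hY : Y =ᶠ[𝓝 p] Y') (hZ : Z =ᶠ[𝓝 p] Z') : KK X Y Z p = KK X' Y' Z' p := by
  simp only [KK, LL, MM, NN]
  rw [(pu_congr hX).eq_of_nhds, (pu_congr hY).eq_of_nhds, (pu_congr hZ).eq_of_nhds,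
    (ps_congr hX).eq_of_nhds, (ps_congr hY).eq_of_nhds, (ps_congr hZ).eq_of_nhds,
    (pu_congr (pu_congr hX)).eq_of_nhds, (pu_congr (pu_congr hY)).eq_of_nhds,
    (pu_congr (pu_congr hZ)).eq_of_nhds,
    (ps_congr (pu_congr hX)).eq_of_nhds, (ps_congr (pu_congr hY)).eq_of_nhds,
    (ps_congr (pu_congr hZ)).eq_of_nhds,
    (ps_congr (ps_congr hX)).eq_of_nhds, (ps_congr (ps_congr hY)).eq_of_nhds,
    (ps_congr (ps_congr hZ)).eq_of_nhds]

theorem EG_congr {X Y Z X' Y' Z' : ℝ × ℝ → ℝ} {p : ℝ × ℝ} (hX : X =ᶠ[𝓝 p] X')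
    (hY : Y =ᶠ[𝓝 p] Y') (hZ : Z =ᶠ[𝓝 p] Z') : EG X Y Z p = EG X' Y' Z' p := by
  simp only [EG]
  rw [(pu_congr hX).eq_of_nhds, (pu_congr hY).eq_of_nhds, (pu_congr hZ).eq_of_nhds,
    (ps_congr hX).eq_of_nhds, (ps_congr hY).eq_of_nhds, (ps_congr hZ).eq_of_nhds]

theorem deriv2_nonpos_of_isLocalMax {f : ℝ → ℝ} {x : ℝ} (hc : ContinuousAt f x)
    (h : IsLocalMax f x) : deriv (deriv f) x ≤ 0 := by
  by_contra hpos
  push Not at hpos
  have hmin : IsLocalMin f x := isLocalMin_of_deriv_deriv_pos hpos h.deriv_eq_zero hc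
  have hconst : f =ᶠ[𝓝 x] fun _ => f x := by
    filter_upwards [h, hmin] with y h1 h2 using le_antisymm h1 h2
  have h2 : deriv (deriv f) x = 0 := by
    rw [hconst.deriv.deriv_eq]
    simp
  linarith

theorem localMax_jets {H : ℝ × ℝ → ℝ} (hH : ContDiff ℝ ∞ H) {p : ℝ × ℝ} (h : IsLocalMax H p) :
    pu H p = 0 ∧ ps H p = 0 ∧ ∀ a b : ℝ,
      a ^ 2 * pu (pu H) p + 2 * a * b * ps (pu H) p + b ^ 2 * ps (ps H) p ≤ 0 := by
  have h0 : fderiv ℝ H p = 0 := h.fderiv_eq_zero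
  refine ⟨by simp [pu, h0], by simp [ps, h0], fun a b => ?_⟩
  have hl : IsLocalMax (fun t : ℝ => H (p + t • (a, b))) 0 := by
    refine IsLocalMax.comp_continuous (f := H) (g := fun t : ℝ => p + t • (a, b)) ?_ (by fun_prop)
    simpa using h
  have hd : deriv (fun t : ℝ => H (p + t • (a, b))) =
      fun t : ℝ => a * pu H (p + t • (a, b)) + b * ps H (p + t • (a, b)) :=
    funext fun t => (hasDerivAt_line hH p (a, b) t).deriv
  have h2 := deriv2_nonpos_of_isLocalMax (hasDerivAt_line hH p (a, b) 0).continuousAt hl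
  rw [hd] at h2
  have h3 := (((hasDerivAt_line (contDiff_pu hH) p (a, b) 0).const_mul a).add
    ((hasDerivAt_line (contDiff_ps hH) p (a, b) 0).const_mul b)).deriv
  rw [pu_ps hH] at h3
  simp only [zero_smul, add_zero] at h3
  have h4 : deriv (fun t : ℝ => a * pu H (p + t • (a, b)) + b * ps H (p + t • (a, b))) 0 =
      a * (a * pu (pu H) p + b * ps (pu H) p) + b * (a * ps (pu H) p + b * ps (ps H) p) := h3
  rw [h4] at h2
  linarith

theorem exists_null_dir {L M N : ℝ} (h : L * N - M ^ 2 ≤ 0) :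
    ∃ a b : ℝ, (a ≠ 0 ∨ b ≠ 0) ∧ a ^ 2 * L + 2 * a * b * M + b ^ 2 * N = 0 := by
  by_cases hL : L = 0
  · exact ⟨1, 0, Or.inl one_ne_zero, by simp [hL]⟩
  · refine ⟨-M + Real.sqrt (M ^ 2 - L * N), L, Or.inr hL, ?_⟩
    have hs : Real.sqrt (M ^ 2 - L * N) ^ 2 = M ^ 2 - L * N := Real.sq_sqrt (by linarith)
    linear_combination L * hs

theorem no_localMax {X Y Z : ℝ × ℝ → ℝ} (hX : ContDiff ℝ ∞ X) (hY : ContDiff ℝ ∞ Y)
    (hZ : ContDiff ℝ ∞ Z) {p : ℝ × ℝ} (hK : KK X Y Z p ≤ 0) (hE : EG X Y Z p ≠ 0)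
    (l1 l2 l3 e : ℝ) (he : 0 < e) :
    ¬ IsLocalMax (fun q => l1 * X q + l2 * Y q + l3 * Z q +
      e * (X q * X q + Y q * Y q + Z q * Z q)) p := by
  intro h
  obtain ⟨h1, h2, h3⟩ := localMax_jets (by fun_prop) h
  obtain ⟨a, b, hab, h0⟩ := exists_null_dir hK
  have h4 := h3 a b
  simp (disch := fun_prop) only [pu_add, ps_add, pu_mul, ps_mul, pu_const, ps_const] at h1 h2 h4
  simp only [LL, MM, NN, det3] at h0
  unfold EG at hE
  set w1 := l1 + 2 * e * X p with hw1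
  set w2 := l2 + 2 * e * Y p with hw2
  set w3 := l3 + 2 * e * Z p with hw3
  set u1 := pu X p
  set u2 := pu Y p
  set u3 := pu Z p
  set s1 := ps X p
  set s2 := ps Y p
  set s3 := ps Z p
  set T1 := a ^ 2 * pu (pu X) p + 2 * a * b * ps (pu X) p + b ^ 2 * ps (ps X) p with hT1
  set T2 := a ^ 2 * pu (pu Y) p + 2 * a * b * ps (pu Y) p + b ^ 2 * ps (ps Y) p with hT2
  set T3 := a ^ 2 * pu (pu Z) p + 2 * a * b * ps (pu Z) p + b ^ 2 * ps (ps Z) p with hT3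
  have g1 : w1 * u1 + w2 * u2 + w3 * u3 = 0 := by rw [hw1, hw2, hw3]; linear_combination h1
  have g2 : w1 * s1 + w2 * s2 + w3 * s3 = 0 := by rw [hw1, hw2, hw3]; linear_combination h2
  have g0 : T1 * (u2 * s3 - u3 * s2) + T2 * (u3 * s1 - u1 * s3) + T3 * (u1 * s2 - u2 * s1) = 0 := by
    rw [hT1, hT2, hT3]; linear_combination h0
  have g4 : w1 * T1 + w2 * T2 + w3 * T3 +
      2 * e * ((a * u1 + b * s1) ^ 2 + (a * u2 + b * s2) ^ 2 + (a * u3 + b * s3) ^ 2) ≤ 0 := by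
    rw [hw1, hw2, hw3, hT1, hT2, hT3]; linarith
  have k1 : (w1 * T1 + w2 * T2 + w3 * T3) * (u2 * s3 - u3 * s2) = 0 := by
    linear_combination w1 * g0 - (s2 * T3 - s3 * T2) * g1 - (T2 * u3 - T3 * u2) * g2
  have k2 : (w1 * T1 + w2 * T2 + w3 * T3) * (u3 * s1 - u1 * s3) = 0 := by
    linear_combination w2 * g0 - (s3 * T1 - s1 * T3) * g1 - (T3 * u1 - T1 * u3) * g2
  have k3 : (w1 * T1 + w2 * T2 + w3 * T3) * (u1 * s2 - u2 * s1) = 0 := by
    linear_combination w3 * g0 - (s1 * T2 - s2 * T1) * g1 - (T1 * u2 - T2 * u1) * g2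
  have k0 : w1 * T1 + w2 * T2 + w3 * T3 = 0 := by
    have : (w1 * T1 + w2 * T2 + w3 * T3) *
        ((u2 * s3 - u3 * s2) ^ 2 + (u3 * s1 - u1 * s3) ^ 2 + (u1 * s2 - u2 * s1) ^ 2) = 0 := by
      linear_combination (u2 * s3 - u3 * s2) * k1 + (u3 * s1 - u1 * s3) * k2 +
        (u1 * s2 - u2 * s1) * k3
    exact (mul_eq_zero.1 this).resolve_right hE
  rw [k0, zero_add] at g4
  have g5 : (a * u1 + b * s1) ^ 2 + (a * u2 + b * s2) ^ 2 + (a * u3 + b * s3) ^ 2 ≤ 0 :=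
    nonpos_of_mul_nonpos_right g4 (by positivity)
  obtain ⟨v1, v2, v3⟩ := sq3_zero g5
  apply hE
  rcases hab with ha | hb
  · have e1 : u2 * s3 - u3 * s2 = 0 := by
      apply mul_left_cancel₀ ha; linear_combination s3 * v2 - s2 * v3
    have e2 : u3 * s1 - u1 * s3 = 0 := by
      apply mul_left_cancel₀ ha; linear_combination s1 * v3 - s3 * v1
    have e3 : u1 * s2 - u2 * s1 = 0 := by
      apply mul_left_cancel₀ ha; linear_combination s2 * v1 - s1 * v2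
    rw [e1, e2, e3]; ring
  · have e1 : u2 * s3 - u3 * s2 = 0 := by
      apply mul_left_cancel₀ hb; linear_combination u2 * v3 - u3 * v2
    have e2 : u3 * s1 - u1 * s3 = 0 := by
      apply mul_left_cancel₀ hb; linear_combination u3 * v1 - u1 * v3
    have e3 : u1 * s2 - u2 * s1 = 0 := by
      apply mul_left_cancel₀ hb; linear_combination u1 * v2 - u2 * v1
    rw [e1, e2, e3]; ring

/-- curvature numerator in the rotating frame -/
theorem KK_rot {A B C : ℝ × ℝ → ℝ} (hA : ContDiff ℝ ∞ A) (hB : ContDiff ℝ ∞ B) (p : ℝ × ℝ) :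
    KK (rX A B) (rY A B) C p =
      det3 (pu (pu A) p - 2 * pu B p - A p) (pu (pu B) p + 2 * pu A p - B p) (pu (pu C) p)
          (pu A p - B p) (pu B p + A p) (pu C p) (ps A p) (ps B p) (ps C p) *
        det3 (ps (ps A) p) (ps (ps B) p) (ps (ps C) p)
          (pu A p - B p) (pu B p + A p) (pu C p) (ps A p) (ps B p) (ps C p) -
      det3 (ps (pu A) p - ps B p) (ps (pu B) p + ps A p) (ps (pu C) p)
          (pu A p - B p) (pu B p + A p) (pu C p) (ps A p) (ps B p) (ps C p) ^ 2 := by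
  have hrot : ∀ a1 a2 a3 b1 b2 b3 c1 c2 c3 : ℝ,
      det3 (Real.cos p.1 * a1 - Real.sin p.1 * a2) (Real.sin p.1 * a1 + Real.cos p.1 * a2) a3
        (Real.cos p.1 * b1 - Real.sin p.1 * b2) (Real.sin p.1 * b1 + Real.cos p.1 * b2) b3
        (Real.cos p.1 * c1 - Real.sin p.1 * c2) (Real.sin p.1 * c1 + Real.cos p.1 * c2) c3 =
      det3 a1 a2 a3 b1 b2 b3 c1 c2 c3 := by
    intro a1 a2 a3 b1 b2 b3 c1 c2 c3
    simp only [det3]
    linear_combination (a1 * (b2 * c3 - b3 * c2) + a2 * (b3 * c1 - b1 * c3) +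
      a3 * (b1 * c2 - b2 * c1)) * Real.sin_sq_add_cos_sq p.1
  simp (disch := fun_prop) only [KK, LL, MM, NN, pu_rX, pu_rY, ps_rX, ps_rY, pu_add, pu_sub,
    ps_add, ps_sub]
  simp only [rX, rY, hrot]
  simp only [det3]
  ring

theorem EG_rot {A B C : ℝ × ℝ → ℝ} (hA : ContDiff ℝ ∞ A) (hB : ContDiff ℝ ∞ B) (p : ℝ × ℝ) :
    EG (rX A B) (rY A B) C p =
      ((pu B p + A p) * ps C p - pu C p * ps B p) ^ 2 +
        (pu C p * ps A p - (pu A p - B p) * ps C p) ^ 2 +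
        ((pu A p - B p) * ps B p - (pu B p + A p) * ps A p) ^ 2 := by
  simp (disch := fun_prop) only [EG, pu_rX, pu_rY, ps_rX, ps_rY]
  simp only [rX, rY]
  have h := Real.sin_sq_add_cos_sq p.1
  set c := Real.cos p.1
  set s := Real.sin p.1
  linear_combination (((pu B p + A p) * ps C p - pu C p * ps B p) ^ 2 +
        (pu C p * ps A p - (pu A p - B p) * ps C p) ^ 2 + (s ^ 2 + c ^ 2 + 1) *
        ((pu A p - B p) * ps B p - (pu B p + A p) * ps A p) ^ 2) * h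

end Pool.Agent.P.MP_956cc7_gt
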