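import Pool.Agent.P.MP_956cc7_gt.Torus

set_option autoImplicit false
open scoped ContDiff Topology
open Filter Set

namespace Pool.Agent.P.MP_956cc7_gt

noncomputable def eng1 (x : ℝ) : ℝ := x⁻¹ ^ 2 * expNegInvGlue x

noncomputable def eng2 (x : ℝ) : ℝ := (x⁻¹ ^ 4 - 2 * x⁻¹ ^ 3) * expNegInvGlue x

theorem hasDerivAt_eng (x : ℝ) : HasDerivAt expNegInvGlue (eng1 x) x := by
  have h := expNegInvGlue.hasDerivAt_polynomial_eval_inv_mul 1 x
  simpa [eng1] using h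

theorem hasDerivAt_eng1 (x : ℝ) : HasDerivAt eng1 (eng2 x) x := by
  have h := expNegInvGlue.hasDerivAt_polynomial_eval_inv_mul (Polynomial.X ^ 2) x
  have e : (fun x : ℝ => Polynomial.eval x⁻¹ (Polynomial.X ^ 2 : Polynomial ℝ) * expNegInvGlue x) =
      eng1 := by
    funext y; simp [eng1]
  rw [e] at h
  refine h.congr_deriv ?_
  simp only [eng2, Polynomial.derivative_X_pow, Polynomial.eval_mul, Polynomial.eval_pow,
    Polynomial.eval_X, Polynomial.eval_sub, Polynomial.eval_C]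
  push_cast
  ring

theorem deriv_eng : deriv expNegInvGlue = eng1 := funext fun x => (hasDerivAt_eng x).deriv

theorem deriv_eng1 : deriv eng1 = eng2 := funext fun x => (hasDerivAt_eng1 x).deriv

theorem eng1_nonneg (x : ℝ) : 0 ≤ eng1 x :=
  mul_nonneg (sq_nonneg _) (expNegInvGlue.nonneg x)

theorem eng1_pos {x : ℝ} (hx : 0 < x) : 0 < eng1 x :=
  mul_pos (by positivity) (expNegInvGlue.pos_of_pos hx)

theorem eng2_eq {x : ℝ} (hx : 0 < x) : eng2 x = x⁻¹ ^ 4 * (1 - 2 * x) * expNegInvGlue x := by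
  unfold eng2
  field_simp

theorem eng2_nonneg {x : ℝ} (hx : x ≤ 1 / 2) : 0 ≤ eng2 x := by
  rcases le_or_gt x 0 with h | h
  · simp [eng2, expNegInvGlue.zero_of_nonpos h]
  · rw [eng2_eq h]
    exact mul_nonneg (mul_nonneg (by positivity) (by linarith)) (expNegInvGlue.nonneg x)

theorem eng2_nonpos {x : ℝ} (hx : 1 / 2 ≤ x) : eng2 x ≤ 0 := by
  rw [eng2_eq (by linarith)]
  exact mul_nonpos_of_nonpos_of_nonneg
    (mul_nonpos_of_nonneg_of_nonpos (by positivity) (by linarith)) (expNegInvGlue.nonneg x)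

theorem concaveOn_eng : ConcaveOn ℝ (Ici (1 / 2 : ℝ)) expNegInvGlue := by
  refine concaveOn_of_deriv2_nonpos' (convex_Ici _)
    (fun x _ => (hasDerivAt_eng x).differentiableAt.differentiableWithinAt) ?_ ?_
  · rw [deriv_eng]
    exact fun x _ => (hasDerivAt_eng1 x).differentiableAt.differentiableWithinAt
  · intro x hx
    simp only [Function.iterate_succ, Function.iterate_zero, Function.comp_apply, id_eq, deriv_eng,
      deriv_eng1]
    exact eng2_nonpos hx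

theorem concaveOn_outer :
    ConcaveOn ℝ (Icc (-1 : ℝ) 1) fun z => expNegInvGlue (1 / 2 + Real.sqrt (1 - z ^ 2)) := by
  refine ⟨convex_Icc _ _, fun x hx y hy a b ha hb hab => ?_⟩
  have hx2 : 0 ≤ 1 - x ^ 2 := by nlinarith [hx.1, hx.2]
  have hy2 : 0 ≤ 1 - y ^ 2 := by nlinarith [hy.1, hy.2]
  have sx := Real.sq_sqrt hx2
  have sy := Real.sq_sqrt hy2
  have px := Real.sqrt_nonneg (1 - x ^ 2)
  have py := Real.sqrt_nonneg (1 - y ^ 2)
  set u := Real.sqrt (1 - x ^ 2)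
  set v := Real.sqrt (1 - y ^ 2)
  have h1 := concaveOn_eng.2 (x := 1 / 2 + u) (y := 1 / 2 + v) (by simp [px]) (by simp [py]) ha hb hab
  refine h1.trans (expNegInvGlue.monotone ?_)
  simp only [smul_eq_mul]
  have h2 : a * u + b * v ≤ Real.sqrt (1 - (a * x + b * y) ^ 2) := by
    apply Real.le_sqrt_of_sq_le
    have h3 : u * v + x * y ≤ 1 := by nlinarith [sq_nonneg (u - v), sq_nonneg (x - y)]
    have h4 : a * b * (u * v + x * y) ≤ a * b * 1 :=
      mul_le_mul_of_nonneg_left h3 (mul_nonneg ha hb)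
    have h5 : (a + b) ^ 2 = 1 := by rw [hab]; norm_num
    have h6 : (a * u + b * v) ^ 2 + (a * x + b * y) ^ 2 =
        a ^ 2 + b ^ 2 + 2 * (a * b * (u * v + x * y)) := by
      linear_combination a ^ 2 * sx + b ^ 2 * sy
    linarith
  have h7 : a * (1 / 2) + b * (1 / 2) = 1 / 2 := by linear_combination (1 / 2) * hab
  linarith

theorem clm_expand (ℓ : E3 →L[ℝ] ℝ) : ∃ l1 l2 l3 : ℝ, ∀ x y z : ℝ,
    ℓ !₂[x, y, z] = l1 * x + l2 * y + l3 * z := by
  refine ⟨ℓ !₂[1, 0, 0], ℓ !₂[0, 1, 0], ℓ !₂[0, 0, 1], fun x y z => ?_⟩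
  have h : (!₂[x, y, z] : E3) = x • !₂[1, 0, 0] + y • !₂[0, 1, 0] + z • !₂[0, 0, 1] := by
    ext i; fin_cases i <;> simp
  rw [h]
  simp only [map_add, map_smul, smul_eq_mul]
  ring

theorem model_conn (a : ℝ → ℝ) (ha : ConcaveOn ℝ (Icc (-1 : ℝ) 1) a) (ha0 : ∀ z, 0 ≤ a z)
    (α β c : ℝ) (hα : 0 ≤ α) :
    IsPreconnected {q : ℝ × ℝ | q.1 ∈ Icc (-Real.pi) Real.pi ∧ q.2 ∈ Icc (-1 : ℝ) 1 ∧
      c < α * a q.2 * Real.cos q.1 + β * q.2} := by
  set S := {q : ℝ × ℝ | q.1 ∈ Icc (-Real.pi) Real.pi ∧ q.2 ∈ Icc (-1 : ℝ) 1 ∧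
      c < α * a q.2 * Real.cos q.1 + β * q.2} with hS
  have hconc : ConcaveOn ℝ (Icc (-1 : ℝ) 1) fun z => α * a z + β * z := by
    refine (ha.smul hα).add ?_
    refine ⟨convex_Icc _ _, fun x _ y _ s t _ _ _ => le_of_eq ?_⟩
    simp only [smul_eq_mul]; ring
  set J := (fun z : ℝ => ((0 : ℝ), z)) '' {z ∈ Icc (-1 : ℝ) 1 | c < α * a z + β * z} with hJ
  have hJc : IsPreconnected J :=
    (hconc.convex_gt c).isPreconnected.image _ (by fun_prop)
  have hJS : J ⊆ S := by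
    rintro _ ⟨z, hz, rfl⟩
    refine ⟨⟨by linarith [Real.pi_pos], Real.pi_pos.le⟩, hz.1, ?_⟩
    simpa using hz.2
  have hseg : ∀ q ∈ S, ∃ t, t ⊆ S ∧ q ∈ t ∧ (0, q.2) ∈ t ∧ (0, q.2) ∈ J ∧ IsPreconnected t := by
    rintro ⟨v, z⟩ ⟨h1, h2, h3⟩
    have hsub : (fun t : ℝ => (t, z)) '' uIcc 0 v ⊆ S := by
      rintro _ ⟨t, ht, rfl⟩
      have ht1 : |t| ≤ |v| := by simpa using abs_sub_left_of_mem_uIcc ht
      have hv : |v| ≤ Real.pi := abs_le.2 h1
      have hcos : Real.cos v ≤ Real.cos t := by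
        rw [← Real.cos_abs v, ← Real.cos_abs t]
        exact Real.cos_le_cos_of_nonneg_of_le_pi (abs_nonneg t) hv ht1
      refine ⟨abs_le.1 (ht1.trans hv), h2, lt_of_lt_of_le h3 ?_⟩
      have := mul_le_mul_of_nonneg_left hcos (mul_nonneg hα (ha0 z))
      simp only
      linarith
    refine ⟨_, hsub, ⟨v, right_mem_uIcc, rfl⟩, ⟨0, left_mem_uIcc, rfl⟩, ?_,
      isPreconnected_uIcc.image _ (by fun_prop)⟩
    have h4 := (hsub ⟨0, left_mem_uIcc, rfl⟩).2.2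
    exact ⟨z, ⟨h2, by simpa using h4⟩, rfl⟩
  refine isPreconnected_of_forall_pair fun p hp q hq => ?_
  obtain ⟨s, hs1, hs2, hs3, hs4, hs5⟩ := hseg p hp
  obtain ⟨t, ht1, ht2, ht3, ht4, ht5⟩ := hseg q hq
  refine ⟨(s ∪ J) ∪ t, union_subset (union_subset hs1 hJS) ht1, Or.inl (Or.inl hs2), Or.inr ht2, ?_⟩
  exact IsPreconnected.union _ (Or.inr ht4) ht3 (IsPreconnected.union _ hs3 hs4 hs5 hJc) ht5

/-- the outer part of the torus -/
def outer : Set T2 := {x | (x.2 : ℂ).re ≤ 0}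

theorem outer_conn {f : T2 → E3} (R : ℝ) (hR : 0 ≤ R)
    (hf : ∀ x ∈ outer, f x = !₂[(R + expNegInvGlue (1 / 2 - (x.2 : ℂ).re)) * (x.1 : ℂ).re,
      (R + expNegInvGlue (1 / 2 - (x.2 : ℂ).re)) * (x.1 : ℂ).im, (x.2 : ℂ).im])
    (ℓ : E3 →L[ℝ] ℝ) (c : ℝ) : IsPreconnected (outer ∩ {p | c < ℓ (f p)}) := by
  obtain ⟨l1, l2, l3, hl⟩ := clm_expand ℓ
  set w : ℂ := ⟨l1, l2⟩ with hw
  set α := ‖w‖ with hα
  set φ := Complex.arg w with hφ
  have h1 : l1 = α * Real.cos φ := (Complex.norm_mul_cos_arg w).symm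
  have h2 : l2 = α * Real.sin φ := (Complex.norm_mul_sin_arg w).symm
  have hc := model_conn (fun z => R + expNegInvGlue (1 / 2 + Real.sqrt (1 - z ^ 2)))
    (by
      have := concaveOn_outer.add_const R
      refine this.congr fun z _ => ?_
      simp [add_comm])
    (fun z => add_nonneg hR (expNegInvGlue.nonneg _)) α l3 c (norm_nonneg w)
  set Θ : ℝ × ℝ → T2 := fun q => (Circle.exp (q.1 + φ), Circle.exp (Real.pi - Real.arcsin q.2))
    with hΘ
  have hΘc : Continuous Θ := by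
    have := Real.continuous_arcsin
    fun_prop
  have hre : ∀ q : ℝ × ℝ, ((Θ q).2 : ℂ).re = -Real.sqrt (1 - q.2 ^ 2) := by
    intro q
    simp only [hΘ, Circle.coe_exp, Complex.exp_ofReal_mul_I_re, Real.cos_pi_sub, Real.cos_arcsin]
  have hΘO : ∀ q : ℝ × ℝ, Θ q ∈ outer := by
    intro q
    show ((Θ q).2 : ℂ).re ≤ 0
    rw [hre]
    simp
  have hval : ∀ q : ℝ × ℝ, q.2 ∈ Icc (-1 : ℝ) 1 → ℓ (f (Θ q)) =
      α * (R + expNegInvGlue (1 / 2 + Real.sqrt (1 - q.2 ^ 2))) * Real.cos q.1 + l3 * q.2 := by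
    intro q hq
    rw [hf _ (hΘO q), hl, hre]
    simp only [hΘ, Circle.coe_exp, Complex.exp_ofReal_mul_I_re, Complex.exp_ofReal_mul_I_im,
      Real.sin_pi_sub, Real.sin_arcsin hq.1 hq.2, sub_neg_eq_add, Real.cos_add, Real.sin_add]
    rw [h1, h2]
    linear_combination (α * (R + expNegInvGlue (1 / 2 + Real.sqrt (1 - q.2 ^ 2))) * Real.cos q.1) *
      Real.sin_sq_add_cos_sq φ
  convert hc.image Θ hΘc.continuousOn using 1
  ext x
  constructor
  · rintro ⟨hxO, hx⟩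
    have hn : (x.2 : ℂ).re ^ 2 + (x.2 : ℂ).im ^ 2 = 1 := by
      have := Circle.normSq_coe x.2
      rw [Complex.normSq_apply] at this
      linarith
    have hz : (x.2 : ℂ).im ∈ Icc (-1 : ℝ) 1 := by
      constructor <;> nlinarith [sq_nonneg (x.2 : ℂ).re]
    have hx' : Θ (Complex.arg ((x.1 / Circle.exp φ : Circle) : ℂ), (x.2 : ℂ).im) = x := by
      refine Prod.ext ?_ ?_
      · simp only [hΘ, Circle.exp_add, Circle.exp_arg]
        simp
      · apply Circle.ext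
        apply Complex.ext
        · rw [hre]
          have : 1 - (x.2 : ℂ).im ^ 2 = (-(x.2 : ℂ).re) ^ 2 := by linarith
          simp only
          rw [this, Real.sqrt_sq (by have : (x.2 : ℂ).re ≤ 0 := hxO; linarith), neg_neg]
        · simp only [hΘ, Circle.coe_exp, Complex.exp_ofReal_mul_I_im, Real.sin_pi_sub,
            Real.sin_arcsin hz.1 hz.2]
    refine ⟨_, ⟨⟨(Complex.neg_pi_lt_arg _).le, Complex.arg_le_pi _⟩, hz, ?_⟩, hx'⟩
    rw [← hval _ hz, hx']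
    exact hx
  · rintro ⟨q, ⟨-, hq2, hq3⟩, rfl⟩
    refine ⟨hΘO q, ?_⟩
    show c < ℓ (f (Θ q))
    rw [hval q hq2]
    exact hq3

end Pool.Agent.P.MP_956cc7_gt
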