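import Pool.Agent.P.MP_956cc7_gt.Scale
import Pool.Agent.P.MP_956cc7_gt.Outer

set_option autoImplicit false
open scoped ContDiff Topology
open Filter Set

namespace Pool.Agent.P.MP_956cc7_gt

theorem sm1_diff {α : ℝ → ℝ} (hα : ContDiff ℝ ∞ α) : Differentiable ℝ α :=
  hα.differentiable (by simp)

theorem sm1_deriv {α : ℝ → ℝ} (hα : ContDiff ℝ ∞ α) : ContDiff ℝ ∞ (deriv α) :=
  (contDiff_infty_iff_deriv.1 hα).2

theorem KK_rev {α β : ℝ → ℝ} (hα : ContDiff ℝ ∞ α) (hβ : ContDiff ℝ ∞ β) (p : ℝ × ℝ) :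
    KK (rX (fun p => α p.2) (fun p => β p.2)) (rY (fun p => α p.2) (fun p => β p.2))
      (fun p => Real.sin p.2) p =
    -((α p.2 ^ 2 + β p.2 ^ 2) *
        (α p.2 * Real.cos p.2 * (deriv (deriv α) p.2 * Real.cos p.2 + deriv α p.2 * Real.sin p.2) +
          β p.2 * Real.cos p.2 * (deriv (deriv β) p.2 * Real.cos p.2 + deriv β p.2 * Real.sin p.2)) +
      (deriv α p.2 * β p.2 - α p.2 * deriv β p.2) ^ 2 * Real.cos p.2 ^ 2) := by
  rw [KK_rot (by fun_prop) (by fun_prop)]
  simp only [pu_snd (sm1_diff hα), pu_snd (sm1_diff hβ), ps_snd (sm1_diff hα), ps_snd (sm1_diff hβ),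
    ps_snd (sm1_diff (sm1_deriv hα)), ps_snd (sm1_diff (sm1_deriv hβ)), pu_const, ps_const,
    pu_sin, ps_sin, ps_cos, det3]
  ring

theorem EG_rev {α β : ℝ → ℝ} (hα : ContDiff ℝ ∞ α) (hβ : ContDiff ℝ ∞ β) (p : ℝ × ℝ) :
    EG (rX (fun p => α p.2) (fun p => β p.2)) (rY (fun p => α p.2) (fun p => β p.2))
      (fun p => Real.sin p.2) p =
    (α p.2 * Real.cos p.2) ^ 2 + (β p.2 * Real.cos p.2) ^ 2 +
      (α p.2 * deriv α p.2 + β p.2 * deriv β p.2) ^ 2 := by
  rw [EG_rot (by fun_prop) (by fun_prop)]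
  simp only [pu_snd (sm1_diff hα), pu_snd (sm1_diff hβ), ps_snd (sm1_diff hα), ps_snd (sm1_diff hβ),
    pu_sin, ps_sin]
  ring

/-- radius of the profile curve -/
noncomputable def al (e s : ℝ) : ℝ := (1 + e ^ 4 / 2) + expNegInvGlue (1 / 2 - Real.cos s)

/-- the twist, cut off in the flaring part -/
noncomputable def tw (s : ℝ) : ℝ := Real.sin s * Real.smoothTransition (10 * Real.cos s - 2)

theorem contDiff_al (e : ℝ) : ContDiff ℝ ∞ (al e) := by unfold al; fun_prop

theorem contDiff_tw : ContDiff ℝ ∞ tw := by unfold tw; fun_prop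

theorem one_le_al (e s : ℝ) : 1 ≤ al e s := by
  have := expNegInvGlue.nonneg (1 / 2 - Real.cos s)
  have : 0 ≤ e ^ 4 := by positivity
  unfold al; linarith

theorem deriv_al (e : ℝ) : deriv (al e) = fun s => eng1 (1 / 2 - Real.cos s) * Real.sin s := by
  funext s
  have h := ((hasDerivAt_eng (1 / 2 - Real.cos s)).comp s
    ((Real.hasDerivAt_cos s).const_sub (1 / 2))).const_add (1 + e ^ 4 / 2)
  rw [neg_neg] at h
  exact h.deriv

theorem deriv2_al (e s : ℝ) : deriv (deriv (al e)) s =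
    eng2 (1 / 2 - Real.cos s) * Real.sin s * Real.sin s + eng1 (1 / 2 - Real.cos s) * Real.cos s := by
  rw [deriv_al]
  have h := ((hasDerivAt_eng1 (1 / 2 - Real.cos s)).comp s
    ((Real.hasDerivAt_cos s).const_sub (1 / 2))).mul (Real.hasDerivAt_sin s)
  rw [neg_neg] at h
  exact h.deriv

theorem tw_eq_zero {s : ℝ} (hs : Real.cos s ≤ 1 / 5) : tw s = 0 := by
  unfold tw
  rw [Real.smoothTransition.zero_of_nonpos (by linarith), mul_zero]

theorem tw_eq_sin {s : ℝ} (hs : 3 / 10 ≤ Real.cos s) : tw s = Real.sin s := by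
  unfold tw
  rw [Real.smoothTransition.one_of_one_le (by linarith), mul_one]

noncomputable def TT (s : ℝ) : ℝ :=
  tw s * Real.cos s * (deriv (deriv tw) s * Real.cos s + deriv tw s * Real.sin s)

theorem eventually_TT : ∀ᶠ e in 𝓝 (0 : ℝ), ∀ s ∈ Icc (-Real.pi) Real.pi, 0 < Real.cos s →
    0 ≤ Real.cos s * eng1 (1 / 2 - Real.cos s) + e ^ 2 * TT s := by
  have hK : IsCompact (Icc (-Real.pi) Real.pi ∩ Real.cos ⁻¹' Icc (1 / 5) (3 / 10)) :=
    isCompact_Icc.inter_right (isClosed_Icc.preimage Real.continuous_cos)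
  have h1 : Continuous eng1 := continuous_iff_continuousAt.2 fun x =>
    (hasDerivAt_eng1 x).continuousAt
  have h2 : Continuous TT := by
    have := contDiff_tw.continuous
    have := (sm1_deriv contDiff_tw).continuous
    have := (sm1_deriv (sm1_deriv contDiff_tw)).continuous
    unfold TT; fun_prop
  have h := hK.eventually_forall_of_forall_eventually (x₀ := (0 : ℝ))
    (P := fun e s => 0 < Real.cos s * eng1 (1 / 2 - Real.cos s) + e ^ 2 * TT s) (by
      intro s hs
      have hc : Continuous fun z : ℝ × ℝ =>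
        Real.cos z.2 * eng1 (1 / 2 - Real.cos z.2) + z.1 ^ 2 * TT z.2 := by fun_prop
      refine hc.continuousAt.eventually (lt_mem_nhds ?_)
      have h3 : 1 / 5 ≤ Real.cos s := hs.2.1
      have h4 : Real.cos s ≤ 3 / 10 := hs.2.2
      have h5 := eng1_pos (x := 1 / 2 - Real.cos s) (by linarith)
      have h6 : 0 < Real.cos s := by linarith
      have h7 := mul_pos h6 h5
      simpa using h7)
  filter_upwards [h] with e he s hs hc
  have h0 : 0 ≤ Real.cos s * eng1 (1 / 2 - Real.cos s) := mul_nonneg hc.le (eng1_nonneg _)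
  rcases lt_or_ge (Real.cos s) (1 / 5) with h3 | h3
  · simp only [TT, tw_eq_zero h3.le]
    simpa using h0
  rcases lt_or_ge (3 / 10) (Real.cos s) with h4 | h4
  · have e1 : tw =ᶠ[𝓝 s] Real.sin := by
      filter_upwards [Real.continuous_cos.continuousAt.eventually (lt_mem_nhds h4)] with t ht
      exact tw_eq_sin ht.le
    have e2 : TT s = 0 := by
      unfold TT
      rw [e1.deriv.deriv_eq, e1.deriv_eq, Real.deriv_sin, Real.deriv_cos]
      ring
    rw [e2]
    simpa using h0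
  · exact (he s ⟨hs, h3, h4⟩).le

theorem KK_rev_nonpos {e : ℝ} {p : ℝ × ℝ} (hc : 0 < Real.cos p.2)
    (h : 0 ≤ Real.cos p.2 * eng1 (1 / 2 - Real.cos p.2) + e ^ 2 * TT p.2) :
    KK (rX (fun p => al e p.2) (fun p => -e * tw p.2)) (rY (fun p => al e p.2)
      (fun p => -e * tw p.2)) (fun p => Real.sin p.2) p ≤ 0 := by
  have htw := contDiff_tw
  rw [KK_rev (β := fun s => -e * tw s) (contDiff_al e) (by fun_prop), deriv2_al, deriv_al]
  have e1 : deriv (fun s => -e * tw s) = fun s => -e * deriv tw s := by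
    funext s; rw [deriv_const_mul_field]
  have e2 : deriv (fun s => -e * deriv tw s) p.2 = -e * deriv (deriv tw) p.2 := by
    rw [deriv_const_mul_field]
  rw [e1, e2]
  have h1 := one_le_al e p.2
  have h2 := eng1_nonneg (1 / 2 - Real.cos p.2)
  have h3 := eng2_nonneg (x := 1 / 2 - Real.cos p.2) (by linarith)
  have h4 : al e p.2 * Real.cos p.2 *
      ((eng2 (1 / 2 - Real.cos p.2) * Real.sin p.2 * Real.sin p.2 +
        eng1 (1 / 2 - Real.cos p.2) * Real.cos p.2) * Real.cos p.2 +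
        eng1 (1 / 2 - Real.cos p.2) * Real.sin p.2 * Real.sin p.2) +
      -e * tw p.2 * Real.cos p.2 * (-e * deriv (deriv tw) p.2 * Real.cos p.2 +
        -e * deriv tw p.2 * Real.sin p.2) =
      al e p.2 * eng2 (1 / 2 - Real.cos p.2) * (Real.sin p.2 * Real.cos p.2) ^ 2 +
      (al e p.2 - 1) * Real.cos p.2 * eng1 (1 / 2 - Real.cos p.2) +
      (Real.cos p.2 * eng1 (1 / 2 - Real.cos p.2) + e ^ 2 * TT p.2) := by
    unfold TT
    linear_combination (al e p.2 * Real.cos p.2 * eng1 (1 / 2 - Real.cos p.2)) *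
      Real.sin_sq_add_cos_sq p.2
  simp only
  rw [h4]
  have h5 : 0 ≤ al e p.2 - 1 := by linarith
  have h6 : 0 ≤ al e p.2 := by linarith
  rw [neg_nonpos]
  positivity

theorem EG_rev_ne (e : ℝ) (p : ℝ × ℝ) :
    EG (rX (fun p => al e p.2) (fun p => -e * tw p.2)) (rY (fun p => al e p.2)
      (fun p => -e * tw p.2)) (fun p => Real.sin p.2) p ≠ 0 := by
  have htw := contDiff_tw
  rw [EG_rev (β := fun s => -e * tw s) (contDiff_al e) (by fun_prop), deriv_al]
  intro h
  obtain ⟨h1, -, h3⟩ := sq3_zero h.le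
  have h4 : al e p.2 ≠ 0 := (lt_of_lt_of_le one_pos (one_le_al e p.2)).ne'
  have hc : Real.cos p.2 = 0 := (mul_eq_zero.1 h1).resolve_left h4
  simp only at h3
  rw [tw_eq_zero (by rw [hc]; norm_num), hc] at h3
  have h5 := eng1_pos (x := 1 / 2 - 0) (by norm_num)
  have hs : Real.sin p.2 = 0 := by
    rw [mul_zero, zero_mul, add_zero] at h3
    exact (mul_eq_zero.1 ((mul_eq_zero.1 h3).resolve_left h4)).resolve_left h5.ne'
  have := Real.sin_sq_add_cos_sq p.2
  rw [hs, hc] at this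
  norm_num at this

end Pool.Agent.P.MP_956cc7_gt
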