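import Pool.Agent.P.MP_956cc7_gt.NoMax

set_option autoImplicit false
open scoped ContDiff Topology
open Filter Set

namespace Pool.Agent.P.MP_956cc7_gt

/-- rescaled curvature numerator as a polynomial in the jets -/
noncomputable def phi (e sn cs a ax as axx axs ass w wx ws wxx wxs wss c cx cs' cxx cxs css : ℝ) : ℝ :=
  e ^ 2 *
      det3 ((1 + e ^ 4) ^ 2 * axx - 2 * e ^ 3 * (1 + e ^ 4) * wx + 2 * (1 + e ^ 4) * cx -
            e ^ 2 * (1 + e ^ 4 / 2 + e ^ 6 * a))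
        ((1 + e ^ 4) ^ 2 * wxx + 2 * e ^ 5 * (1 + e ^ 4) * ax - e ^ 8 * w + e ^ 4 * (sn + e * c))
        (e * (1 + e ^ 4) ^ 2 * cxx)
        (e * (1 + e ^ 4) * ax - e ^ 4 * w + (sn + e * c))
        (1 + e ^ 4 / 2 + e ^ 6 * a + e * (1 + e ^ 4) * wx) (e ^ 2 * (1 + e ^ 4) * cx)
        as ws (cs + e * cs') *
      det3 ass wss (-sn + e * css)
        (e * (1 + e ^ 4) * ax - e ^ 4 * w + (sn + e * c))
        (1 + e ^ 4 / 2 + e ^ 6 * a + e * (1 + e ^ 4) * wx) (e ^ 2 * (1 + e ^ 4) * cx)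
        as ws (cs + e * cs') -
    det3 (e * (1 + e ^ 4) * axs - e ^ 4 * ws + (cs + e * cs'))
        (e ^ 6 * as + e * (1 + e ^ 4) * wxs) (e ^ 2 * (1 + e ^ 4) * cxs)
        (e * (1 + e ^ 4) * ax - e ^ 4 * w + (sn + e * c))
        (1 + e ^ 4 / 2 + e ^ 6 * a + e * (1 + e ^ 4) * wx) (e ^ 2 * (1 + e ^ 4) * cx)
        as ws (cs + e * cs') ^ 2

noncomputable def phiF (e : ℝ) (a w c : ℝ × ℝ → ℝ) (q : ℝ × ℝ) : ℝ :=
  phi e (Real.sin q.2) (Real.cos q.2)
    (a q) (pu a q) (ps a q) (pu (pu a) q) (ps (pu a) q) (ps (ps a) q)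
    (w q) (pu w q) (ps w q) (pu (pu w) q) (ps (pu w) q) (ps (ps w) q)
    (c q) (pu c q) (ps c q) (pu (pu c) q) (ps (pu c) q) (ps (ps c) q)

noncomputable def mA (e k : ℝ) (a : ℝ × ℝ → ℝ) : ℝ × ℝ → ℝ :=
  fun p => (1 + e ^ 4 / 2) + e ^ 6 * sc k a p

noncomputable def mC (e k : ℝ) (c : ℝ × ℝ → ℝ) : ℝ × ℝ → ℝ :=
  fun p => Real.sin p.2 + e * sc k c p

noncomputable def mB (e k : ℝ) (w c : ℝ × ℝ → ℝ) : ℝ × ℝ → ℝ :=
  fun p => e ^ 5 * sc k w p - e * mC e k c p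

theorem pu_sin : pu (fun p => Real.sin p.2) = fun _ => 0 := pu_snd Real.differentiable_sin

theorem pu_cos : pu (fun p => Real.cos p.2) = fun _ => 0 := pu_snd Real.differentiable_cos

theorem ps_sin : ps (fun p => Real.sin p.2) = fun p => Real.cos p.2 := by
  rw [ps_snd Real.differentiable_sin, Real.deriv_sin]

theorem ps_cos : ps (fun p => Real.cos p.2) = fun p => -Real.sin p.2 := by
  rw [ps_snd Real.differentiable_cos, Real.deriv_cos']

theorem KK_model {e k : ℝ} (he : e ≠ 0) (hk : k * e ^ 4 = 1 + e ^ 4) {a w c : ℝ × ℝ → ℝ}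
    (ha : ContDiff ℝ ∞ a) (hw : ContDiff ℝ ∞ w) (hc : ContDiff ℝ ∞ c) (p : ℝ × ℝ) :
    KK (rX (mA e k a) (mB e k w c)) (rY (mA e k a) (mB e k w c)) (mC e k c) p =
      e ^ 2 * phiF e a w c (k * p.1, p.2) := by
  rw [KK_rot (by unfold mA; fun_prop) (by unfold mB mC; fun_prop)]
  unfold mA mB mC
  simp (disch := fun_prop) only [pu_add, ps_add, pu_sub, ps_sub, pu_cmul, ps_cmul, pu_const,
    ps_const, pu_sc, ps_sc, pu_sin, ps_sin, ps_cos]
  simp only [sc, phiF, phi]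
  obtain rfl : k = (1 + e ^ 4) / e ^ 4 := by field_simp; exact hk
  set q : ℝ × ℝ := ((1 + e ^ 4) / e ^ 4 * p.1, p.2)
  have hL : ∀ x y z : ℝ, x * y - z ^ 2 = e ^ 2 * (e ^ 2 * (e ^ 2 * x) * (y / e ^ 6) - (z / e) ^ 2) := by
    intro x y z; field_simp
  rw [hL]
  congr 3
  · congr 1
    simp only [det3]
    field_simp
    ring
  · simp only [det3]
    field_simp
    ring
  · simp only [det3]
    field_simp
    ring

theorem phiF_per (e : ℝ) {a w c : ℝ × ℝ → ℝ} (ha : Per a) (hw : Per w) (hc : Per c) :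
    Per (phiF e a w c) := by
  intro p
  simp only [phiF]
  rw [ha p, ha.pu p, ha.ps p, ha.pu.pu p, ha.pu.ps p, ha.ps.ps p,
    hw p, hw.pu p, hw.ps p, hw.pu.pu p, hw.pu.ps p, hw.ps.ps p,
    hc p, hc.pu p, hc.ps p, hc.pu.pu p, hc.pu.ps p, hc.ps.ps p]
  simp

theorem Per.exists_mem {f : ℝ × ℝ → ℝ} (h : Per f) (x s : ℝ) :
    ∃ y ∈ Icc 0 (2 * Real.pi), f (x, s) = f (y, s) := by
  have hp : Function.Periodic (fun x => f (x, s)) (2 * Real.pi) := by
    intro x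
    simpa using h (x, s)
  obtain ⟨y, hy, hy'⟩ := hp.exists_mem_Ico₀ Real.two_pi_pos x
  exact ⟨y, Ico_subset_Icc_self hy, hy'⟩

/-- tube lemma for families periodic in the first variable -/
theorem eventually_pos {Φ : ℝ → ℝ × ℝ → ℝ} (hc : Continuous fun q : ℝ × (ℝ × ℝ) => Φ q.1 q.2)
    (hp : ∀ e, Per (Φ e)) {K : Set ℝ} (hK : IsCompact K) (h0 : ∀ x, ∀ s ∈ K, 0 < Φ 0 (x, s)) :
    ∀ᶠ e in 𝓝 (0 : ℝ), ∀ x, ∀ s ∈ K, 0 < Φ e (x, s) := by
  have h := ((isCompact_Icc (a := (0 : ℝ)) (b := 2 * Real.pi)).prod hK).eventually_forall_of_forall_eventually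
    (x₀ := (0 : ℝ)) (P := fun e q => 0 < Φ e q) (by
      intro q hq
      exact hc.continuousAt.eventually (lt_mem_nhds (h0 q.1 q.2 hq.2)))
  filter_upwards [h] with e he x s hs
  obtain ⟨y, hy, hy'⟩ := (hp e).exists_mem x s
  rw [hy']
  exact he (y, s) ⟨hy, hs⟩

theorem eventually_phiF_neg {a w c : ℝ → ℝ × ℝ → ℝ}
    (ha : ContDiff ℝ ∞ fun q : ℝ × (ℝ × ℝ) => a q.1 q.2)
    (hw : ContDiff ℝ ∞ fun q : ℝ × (ℝ × ℝ) => w q.1 q.2)
    (hc : ContDiff ℝ ∞ fun q : ℝ × (ℝ × ℝ) => c q.1 q.2)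
    (pa : ∀ e, Per (a e)) (pw : ∀ e, Per (w e)) (pc : ∀ e, Per (c e)) :
    ∀ᶠ e in 𝓝 (0 : ℝ), ∀ x, ∀ s ∈ Icc (-Real.pi) Real.pi ∩ {s | 1 / 2 ≤ Real.cos s},
      phiF e (a e) (w e) (c e) (x, s) < 0 := by
  have h := eventually_pos (Φ := fun e q => -phiF e (a e) (w e) (c e) q)
    (K := Icc (-Real.pi) Real.pi ∩ {s | 1 / 2 ≤ Real.cos s}) ?_ ?_ ?_ ?_
  · filter_upwards [h] with e he x s hs
    linarith [he x s hs]
  · have a0 := ha.continuous
    have a1 := (contDiff_pu_fam ha).continuous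
    have a2 := (contDiff_ps_fam ha).continuous
    have a3 := (contDiff_pu_fam (a := fun e => pu (a e)) (contDiff_pu_fam ha)).continuous
    have a4 := (contDiff_ps_fam (a := fun e => pu (a e)) (contDiff_pu_fam ha)).continuous
    have a5 := (contDiff_ps_fam (a := fun e => ps (a e)) (contDiff_ps_fam ha)).continuous
    have w0 := hw.continuous
    have w1 := (contDiff_pu_fam hw).continuous
    have w2 := (contDiff_ps_fam hw).continuous
    have w3 := (contDiff_pu_fam (a := fun e => pu (w e)) (contDiff_pu_fam hw)).continuous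
    have w4 := (contDiff_ps_fam (a := fun e => pu (w e)) (contDiff_pu_fam hw)).continuous
    have w5 := (contDiff_ps_fam (a := fun e => ps (w e)) (contDiff_ps_fam hw)).continuous
    have c0 := hc.continuous
    have c1 := (contDiff_pu_fam hc).continuous
    have c2 := (contDiff_ps_fam hc).continuous
    have c3 := (contDiff_pu_fam (a := fun e => pu (c e)) (contDiff_pu_fam hc)).continuous
    have c4 := (contDiff_ps_fam (a := fun e => pu (c e)) (contDiff_pu_fam hc)).continuous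
    have c5 := (contDiff_ps_fam (a := fun e => ps (c e)) (contDiff_ps_fam hc)).continuous
    simp only [phiF, phi, det3]
    fun_prop
  · intro e p
    simp only [phiF_per e (pa e) (pw e) (pc e) p]
  · exact isCompact_Icc.inter_right (isClosed_le continuous_const Real.continuous_cos)
  · intro x s hs
    have h1 : 0 < Real.cos s := lt_of_lt_of_le (by norm_num) hs.2
    simp only [phiF, phi, det3]
    have : 0 < Real.cos s ^ 4 := by positivity
    ring_nf
    linarith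

end Pool.Agent.P.MP_956cc7_gt
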