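import Mathlib

set_option autoImplicit false
open scoped ContDiff Topology Manifold
open Filter Set

namespace Pool.Agent.P.MP_956cc7_gt

abbrev E3 := EuclideanSpace ℝ (Fin 3)

abbrev T2 := Circle × Circle

/-- universal covering of the torus -/
noncomputable def ex (p : ℝ × ℝ) : T2 := (Circle.exp p.1, Circle.exp p.2)

/-- the standard lift of a point of the torus -/
noncomputable def lift (x : T2) : ℝ × ℝ := (Complex.arg x.1, Complex.arg x.2)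

theorem ex_lift (x : T2) : ex (lift x) = x := by
  simp [ex, lift, Circle.exp_arg]

theorem continuous_ex : Continuous ex := by
  unfold ex; fun_prop

/-- doubly periodic maps -/
def DPer (F : ℝ × ℝ → E3) : Prop :=
  ∀ (p : ℝ × ℝ) (m n : ℤ), F (p.1 + m * (2 * Real.pi), p.2 + n * (2 * Real.pi)) = F p

/-- the map of the torus induced by a doubly periodic map -/
noncomputable def desc (F : ℝ × ℝ → E3) : T2 → E3 := fun x => F (lift x)

theorem desc_ex {F : ℝ × ℝ → E3} (hF : DPer F) (p : ℝ × ℝ) : desc F (ex p) = F p := by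
  obtain ⟨m, hm⟩ := Circle.exp_eq_exp.1 (Circle.exp_arg (Circle.exp p.1))
  obtain ⟨n, hn⟩ := Circle.exp_eq_exp.1 (Circle.exp_arg (Circle.exp p.2))
  simp only [desc, lift, ex]
  rw [hm, hn]
  exact hF p m n

/-- local section of the exponential near a point -/
noncomputable def sec1 (x0 x : Circle) : ℝ := Complex.arg x0 + (Complex.log ((x : ℂ) / x0)).im

theorem exp_sec1 (x0 x : Circle) : Circle.exp (sec1 x0 x) = x := by
  have h : (Complex.log ((x : ℂ) / x0)).im = Complex.arg ((x / x0 : Circle) : ℂ) := by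
    rw [Complex.log_im, Circle.coe_div]
  rw [sec1, Circle.exp_add, h, Circle.exp_arg, Circle.exp_arg]
  simp

theorem sec1_self (x0 : Circle) : sec1 x0 x0 = Complex.arg x0 := by
  simp [sec1]

theorem contMDiffAt_sec1 (x0 : Circle) : ContMDiffAt (𝓡 1) 𝓘(ℝ, ℝ) ∞ (sec1 x0) x0 := by
  have := finrank_real_complex_fact'
  have h1 : ContMDiff (𝓡 1) 𝓘(ℝ, ℂ) ∞ (fun x : Circle => (x : ℂ)) := contMDiff_coe_sphere
  have h2 : ContDiffAt ℝ ∞ (fun z : ℂ => Complex.arg x0 + (Complex.log (z / x0)).im) (x0 : ℂ) := by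
    have h3 : ContDiffAt ℝ ∞ Complex.log ((x0 : ℂ) / x0) := by
      refine (Complex.contDiffAt_log ?_).restrict_scalars ℝ
      simp
    have h4 : ContDiffAt ℝ ∞ (fun z : ℂ => Complex.log (z / x0)) (x0 : ℂ) :=
      h3.comp (f := fun z : ℂ => z / x0) (x0 : ℂ) (contDiffAt_id.div_const _)
    have h5 := (Complex.imCLM.contDiff (n := ∞)).contDiffAt.comp (x0 : ℂ) h4
    exact contDiffAt_const.add h5
  exact h2.contMDiffAt.comp x0 (h1 x0)

noncomputable def sec (x0 x : T2) : ℝ × ℝ := (sec1 x0.1 x.1, sec1 x0.2 x.2)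

theorem ex_sec (x0 x : T2) : ex (sec x0 x) = x := by
  simp [ex, sec, exp_sec1]

theorem sec_self (x0 : T2) : sec x0 x0 = lift x0 := by
  simp [sec, lift, sec1_self]

theorem contMDiffAt_sec (x0 : T2) :
    ContMDiffAt ((𝓡 1).prod (𝓡 1)) 𝓘(ℝ, ℝ × ℝ) ∞ (sec x0) x0 :=
  ((contMDiffAt_sec1 x0.1).comp x0 contMDiffAt_fst).prodMk_space
    ((contMDiffAt_sec1 x0.2).comp x0 contMDiffAt_snd)

theorem contMDiff_ex : ContMDiff 𝓘(ℝ, ℝ × ℝ) ((𝓡 1).prod (𝓡 1)) ∞ ex :=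
  (contMDiff_circleExp.comp contDiff_fst.contMDiff).prodMk
    (contMDiff_circleExp.comp contDiff_snd.contMDiff)

theorem desc_eq_comp {F : ℝ × ℝ → E3} (hF : DPer F) (x0 : T2) : desc F = F ∘ sec x0 := by
  funext x
  rw [Function.comp_apply, ← desc_ex hF, ex_sec]

theorem contMDiff_desc {F : ℝ × ℝ → E3} (hs : ContDiff ℝ ∞ F) (hF : DPer F) :
    ContMDiff ((𝓡 1).prod (𝓡 1)) 𝓘(ℝ, E3) ∞ (desc F) := by
  intro x
  rw [desc_eq_comp hF x]
  exact (hs.contMDiff _).comp x (contMDiffAt_sec x)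

theorem injective_mfderiv_sec (x : T2) :
    Function.Injective (mfderiv ((𝓡 1).prod (𝓡 1)) 𝓘(ℝ, ℝ × ℝ) (sec x) x) := by
  have h1 : ex ∘ sec x = id := funext (ex_sec x)
  have h2 := mfderiv_comp x (g := ex) (f := sec x) (contMDiff_ex.mdifferentiableAt (by simp))
    ((contMDiffAt_sec x).mdifferentiableAt (by simp))
  intro v w hvw
  have h3 : mfderiv ((𝓡 1).prod (𝓡 1)) ((𝓡 1).prod (𝓡 1)) (ex ∘ sec x) x v =
      mfderiv ((𝓡 1).prod (𝓡 1)) ((𝓡 1).prod (𝓡 1)) (ex ∘ sec x) x w := by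
    rw [h2]
    simp only [ContinuousLinearMap.comp_apply]
    exact congrArg _ hvw
  rw [h1, mfderiv_id] at h3
  exact h3

theorem mfderiv_desc {F : ℝ × ℝ → E3} (hs : ContDiff ℝ ∞ F) (hF : DPer F) (x : T2)
    (v : TangentSpace ((𝓡 1).prod (𝓡 1)) x) :
    mfderiv ((𝓡 1).prod (𝓡 1)) 𝓘(ℝ, E3) (desc F) x v =
      fderiv ℝ F (lift x) (mfderiv ((𝓡 1).prod (𝓡 1)) 𝓘(ℝ, ℝ × ℝ) (sec x) x v) := by
  have h2 := mfderiv_comp x (g := F) (f := sec x) (hs.contMDiff.mdifferentiableAt (by simp))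
    ((contMDiffAt_sec x).mdifferentiableAt (by simp))
  rw [desc_eq_comp hF x, h2, mfderiv_eq_fderiv, ← sec_self]
  rfl

theorem injective_mfderiv_desc {F : ℝ × ℝ → E3} (hs : ContDiff ℝ ∞ F) (hF : DPer F) (x : T2)
    (h : Function.Injective (fderiv ℝ F (lift x))) :
    Function.Injective (mfderiv ((𝓡 1).prod (𝓡 1)) 𝓘(ℝ, E3) (desc F) x) := by
  intro v w hvw
  rw [mfderiv_desc hs hF, mfderiv_desc hs hF] at hvw
  exact injective_mfderiv_sec x (h hvw)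

/-- a piece of an open half space section contains a local maximum -/
theorem exists_localMax {f : T2 → E3} (hf : Continuous f) (ℓ : E3 →L[ℝ] ℝ) (c : ℝ) {u v : Set T2}
    (hu : IsOpen u) (hv : IsOpen v) (huv : {p | c < ℓ (f p)} ⊆ u ∪ v)
    (hd : ¬ ({p | c < ℓ (f p)} ∩ (u ∩ v)).Nonempty) (hne : ({p | c < ℓ (f p)} ∩ u).Nonempty) :
    ∃ e : ℝ, 0 < e ∧ ∃ y ∈ {p | c < ℓ (f p)} ∩ u,
      IsLocalMax (fun x => ℓ (f x) + e * ‖f x‖ ^ 2) y := by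
  set S : Set T2 := {p | c < ℓ (f p)} with hS
  have hSo : IsOpen S := isOpen_lt continuous_const (by fun_prop)
  obtain ⟨x, hxS, hxu⟩ := hne
  obtain ⟨Mx, hMx⟩ : ∃ Mx : ℝ, ∀ y, ‖f y‖ ^ 2 ≤ Mx := by
    obtain ⟨y0, -, hy0⟩ := isCompact_univ.exists_isMaxOn (f := fun y => ‖f y‖ ^ 2) univ_nonempty
      (by fun_prop)
    exact ⟨_, fun y => hy0 (mem_univ y)⟩
  have hM0 : 0 ≤ Mx := le_trans (sq_nonneg _) (hMx x)
  have hx : c < ℓ (f x) := hxS
  set e : ℝ := (ℓ (f x) - c) / (Mx + 1) with he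
  have he0 : 0 < e := div_pos (by linarith) (by linarith)
  have heM : e * Mx < ℓ (f x) - c := by
    have : e * (Mx + 1) = ℓ (f x) - c := by rw [he]; field_simp
    nlinarith
  refine ⟨e, he0, ?_⟩
  obtain ⟨y, hy, hmax⟩ := (isClosed_closure (s := S ∩ u)).isCompact.exists_isMaxOn
    (f := fun x => ℓ (f x) + e * ‖f x‖ ^ 2) ⟨x, subset_closure ⟨hxS, hxu⟩⟩ (by fun_prop)
  have hyS : y ∈ S := by
    have h1 : ℓ (f x) + e * ‖f x‖ ^ 2 ≤ ℓ (f y) + e * ‖f y‖ ^ 2 :=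
      hmax (subset_closure ⟨hxS, hxu⟩)
    have h2 : e * ‖f y‖ ^ 2 ≤ e * Mx := mul_le_mul_of_nonneg_left (hMx y) he0.le
    have h3 : 0 ≤ e * ‖f x‖ ^ 2 := by positivity
    show c < ℓ (f y)
    linarith
  have hyu : y ∈ u := by
    rcases huv hyS with h | h
    · exact h
    · obtain ⟨z, hz1, hz2⟩ := mem_closure_iff.1 hy v hv h
      exact absurd ⟨z, hz2.1, hz2.2, hz1⟩ hd
  refine ⟨y, ⟨hyS, hyu⟩, ?_⟩
  exact (hmax.on_subset subset_closure).isLocalMax ((hSo.inter hu).mem_nhds ⟨hyS, hyu⟩)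

theorem tight_of {f : T2 → E3} (hf : Continuous f) (O : Set T2)
    (hO : ∀ (ℓ : E3 →L[ℝ] ℝ) (c : ℝ), IsPreconnected (O ∩ {p | c < ℓ (f p)}))
    (hmax : ∀ (ℓ : E3 →L[ℝ] ℝ) (e : ℝ), 0 < e → ∀ y,
      IsLocalMax (fun x => ℓ (f x) + e * ‖f x‖ ^ 2) y → y ∈ O)
    (ℓ : E3 →L[ℝ] ℝ) (c : ℝ) : IsPreconnected {p | c < ℓ (f p)} := by
  intro u v hu hv huv h1 h2
  by_contra hd
  obtain ⟨e, he, y, hy, hy'⟩ := exists_localMax hf ℓ c hu hv huv hd h1
  obtain ⟨e', he', z, hz, hz'⟩ := exists_localMax hf ℓ c hv hu (by rwa [union_comm])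
    (by rwa [inter_comm v u]) h2
  obtain ⟨w, hw1, hw2⟩ := hO ℓ c u v hu hv (inter_subset_right.trans huv)
    ⟨y, ⟨hmax ℓ e he y hy', hy.1⟩, hy.2⟩ ⟨z, ⟨hmax ℓ e' he' z hz', hz.1⟩, hz.2⟩
  exact hd ⟨w, hw1.2, hw2⟩

theorem not_congr {f g : T2 → E3} (hf : Continuous f) (hg : Continuous g) (O : Set T2)
    (hfg : ∀ x ∈ O, f x = g x) (hanti : ∀ x ∈ O, ∃ y, f y = -f x)
    (hmf : ∀ y, IsLocalMax (fun x => ‖f x‖ ^ 2) y → y ∈ O)
    (hmg : ∀ y, IsLocalMax (fun x => ‖g x‖ ^ 2) y → y ∈ O)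
    (hmin : ∀ x, (∀ y, ‖f x‖ ≤ ‖f y‖) → ‖g x‖ < ‖f x‖)
    (A : E3 ≃ᵃⁱ[ℝ] E3) (ψ : T2 → T2) (hψ : Function.Surjective ψ)
    (h : ∀ p, g (ψ p) = A (f p)) : False := by
  obtain ⟨p, -, hp⟩ := isCompact_univ.exists_isMaxOn (f := fun y => ‖f y‖ ^ 2) univ_nonempty
    (by fun_prop)
  obtain ⟨q, -, hq⟩ := isCompact_univ.exists_isMaxOn (f := fun y => ‖g y‖ ^ 2) univ_nonempty
    (by fun_prop)
  have hpO := hmf p (hp.isLocalMax univ_mem)
  have hqO := hmg q (hq.isLocalMax univ_mem)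
  have hb : ∀ y, ‖g y‖ ^ 2 ≤ ‖f p‖ ^ 2 := by
    intro y
    have h1 : ‖g y‖ ^ 2 ≤ ‖g q‖ ^ 2 := hq (mem_univ y)
    have h2 : ‖f q‖ ^ 2 ≤ ‖f p‖ ^ 2 := hp (mem_univ q)
    rw [hfg q hqO] at h2
    linarith
  obtain ⟨y, hy⟩ := hanti p hpO
  have hA : ∀ v, A v = A.linearIsometryEquiv v + A 0 := by
    intro v
    have := A.map_vadd 0 v
    simpa using this
  have h0 : A 0 = 0 := by
    have h1 := hb (ψ p)
    have h2 := hb (ψ y)
    rw [h, hA] at h1 h2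
    rw [hy, map_neg, neg_add_eq_sub] at h2
    rw [add_comm] at h1
    have h3 := parallelogram_law_with_norm ℝ (A 0) (A.linearIsometryEquiv (f p))
    rw [A.linearIsometryEquiv.norm_map] at h3
    have h4 : ‖A 0‖ * ‖A 0‖ ≤ 0 := by nlinarith
    have h5 : ‖A 0‖ = 0 := by nlinarith [norm_nonneg (A 0)]
    exact norm_eq_zero.1 h5
  obtain ⟨x, -, hx⟩ := isCompact_univ.exists_isMinOn (f := fun y => ‖f y‖) univ_nonempty
    (by fun_prop)
  have h1 := hmin x fun y => hx (mem_univ y)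
  obtain ⟨w, rfl⟩ := hψ x
  rw [h, hA, h0, add_zero, A.linearIsometryEquiv.norm_map] at h1
  exact absurd (hx (mem_univ w)) (not_le.2 h1)

end Pool.Agent.P.MP_956cc7_gt
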